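import Pool.Agent.Lib.MP_ab3cdc_lc.Defs

namespace Pool.Agent.Lib.MP_ab3cdc_lc

variable {A B V W : Type}

@[simp] lemma subst_nil (σ : V → List A) : subst σ [] = [] := rfl

@[simp] lemma subst_inl (σ : V → List A) (a : A) (U : List (A ⊕ V)) :
    subst σ (Sum.inl a :: U) = a :: subst σ U := by simp [subst]

@[simp] lemma subst_inr (σ : V → List A) (x : V) (U : List (A ⊕ V)) :
    subst σ (Sum.inr x :: U) = σ x ++ subst σ U := by simp [subst]

@[simp] lemma subst_append (σ : V → List A) (U U' : List (A ⊕ V)) :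
    subst σ (U ++ U') = subst σ U ++ subst σ U' := by simp [subst]

@[simp] lemma subst_map_inl (σ : V → List A) (y : List A) :
    subst σ (y.map Sum.inl) = y := by
  induction y with
  | nil => rfl
  | cons a y ih => simp [ih]

lemma subst_congr {σ τ : V → List A} {U : List (A ⊕ V)}
    (h : ∀ x, Sum.inr x ∈ U → σ x = τ x) : subst σ U = subst τ U := by
  induction U with
  | nil => rfl
  | cons t U ih =>
    have ih' := ih (fun x hx => h x (List.mem_cons_of_mem _ hx))
    cases t with
    | inl a => simp [ih']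
    | inr x => simp [ih', h x List.mem_cons_self]

/-- Systems of word equations. -/
abbrev Sys (A V : Type) := List (List (A ⊕ V) × List (A ⊕ V))

def Solves (σ : V → List A) (E : Sys A V) : Prop := ∀ e ∈ E, subst σ e.1 = subst σ e.2

/-- The size of a system is at most `n`. -/
def SizeLe (n : ℕ) (E : Sys A V) : Prop :=
  E.length ≤ n ∧ ∀ e ∈ E, e.1.length ≤ n ∧ e.2.length ≤ n

lemma exists_sizeLe (E : Sys A V) : ∃ n, SizeLe n E := by
  induction E with
  | nil => exact ⟨0, by simp [SizeLe]⟩
  | cons e E ih =>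
    obtain ⟨n, h1, h2⟩ := ih
    refine ⟨n + 1 + e.1.length + e.2.length, by simp; omega, ?_⟩
    intro e' he'
    rcases List.mem_cons.1 he' with rfl | he'
    · omega
    · have := h2 e' he'; omega

lemma subst_map_letters (r : A → B) (τ : V → List A) (U : List (A ⊕ V)) :
    subst (fun x => (τ x).map r) (U.map (Sum.map r id)) = (subst τ U).map r := by
  induction U with
  | nil => rfl
  | cons t U ih => cases t <;> simp [ih]

lemma subst_dec (r : A → B) (d : B → List A) (τ : V → List B) (U : List (A ⊕ V))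
    (h : ∀ a, Sum.inl a ∈ U → d (r a) = [a]) :
    subst (fun x => (τ x).flatMap d) U = (subst τ (U.map (Sum.map r id))).flatMap d := by
  induction U with
  | nil => rfl
  | cons t U ih =>
    have ih' := ih (fun x hx => h x (List.mem_cons_of_mem _ hx))
    cases t with
    | inl a => simp [ih', h a List.mem_cons_self]
    | inr x => simp [ih']

lemma finite_sizeLe (A V : Type) [Finite A] [Finite V] (n : ℕ) :
    {E : Sys A V | SizeLe n E}.Finite := by
  have h1 : {U : List (A ⊕ V) | U.length ≤ n}.Finite := List.finite_length_le _ n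
  have h2 := h1.prod h1
  have : Finite ({U : List (A ⊕ V) | U.length ≤ n} ×ˢ {U : List (A ⊕ V) | U.length ≤ n} :
      Set _) := h2.to_subtype
  have h3 := (List.finite_length_le
    ({U : List (A ⊕ V) | U.length ≤ n} ×ˢ {U : List (A ⊕ V) | U.length ≤ n} : Set _) n).image
    (fun l => l.map Subtype.val)
  refine h3.subset ?_
  rintro E ⟨hE1, hE2⟩
  refine ⟨E.attach.map (fun e => ⟨e.1, hE2 e.1 e.2⟩), by simpa using hE1, ?_⟩
  simp only [List.map_map, Function.comp_def]
  exact List.attach_map_subtype_val E

/-- The letters occurring in a system. -/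
def letters (E : Sys A V) : List A :=
  E.flatMap (fun e => (e.1 ++ e.2).filterMap Sum.getLeft?)

lemma mem_letters {E : Sys A V} {a : A} :
    a ∈ letters E ↔ ∃ e ∈ E, Sum.inl a ∈ e.1 ∨ Sum.inl a ∈ e.2 := by
  simp only [letters, List.mem_flatMap, List.mem_filterMap, List.mem_append,
    Sum.getLeft?_eq_some_iff]
  constructor
  · rintro ⟨e, he, t, ht, rfl⟩; exact ⟨e, he, ht⟩
  · rintro ⟨e, he, ht⟩; exact ⟨e, he, _, ht, rfl⟩

lemma length_letters {n : ℕ} {E : Sys A V} (h : SizeLe n E) :
    (letters E).length ≤ n * (2 * n) := by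
  obtain ⟨h1, h2⟩ := h
  have : ∀ E : Sys A V, (∀ e ∈ E, e.1.length ≤ n ∧ e.2.length ≤ n) →
      (letters E).length ≤ E.length * (2 * n) := by
    intro E hE
    induction E with
    | nil => simp [letters]
    | cons e E ih =>
      have ih' := ih (fun e' he' => hE e' (List.mem_cons_of_mem _ he'))
      have h3 := hE e List.mem_cons_self
      have h4 := List.length_filterMap_le (Sum.getLeft? (α := A) (β := V)) (e.1 ++ e.2)
      simp only [letters, List.flatMap_cons, List.length_append, List.length_cons] at *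
      nlinarith
  exact (this E h2).trans (Nat.mul_le_mul_right _ h1)

/-- A solvable system of bounded size has a solution of bounded size that uses only letters
of the system, uniformly in the alphabet. -/
theorem bounded_solution (V : Type) [Finite V] (n : ℕ) : ∃ C : ℕ, ∀ (A : Type) (E : Sys A V),
    SizeLe n E → ∀ τ : V → List A, Solves τ E →
    ∃ τ' : V → List A, Solves τ' E ∧ ∀ x, (τ' x).length ≤ C ∧ ∀ a ∈ τ' x, a ∈ letters E := by
  classical
  set m := n * (2 * n) with hm
  have hfin := finite_sizeLe (Fin (m + 1)) V n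
  have hch : ∀ E : Sys (Fin (m + 1)) V, ∃ τ : V → List (Fin (m + 1)),
      (∃ τ₀, Solves τ₀ E) → Solves τ E := by
    intro E
    by_cases h : ∃ τ₀, Solves τ₀ E
    · obtain ⟨τ₀, h₀⟩ := h; exact ⟨τ₀, fun _ => h₀⟩
    · exact ⟨fun _ => [], fun h' => absurd h' h⟩
  choose sol hsol using hch
  obtain ⟨C, hC⟩ : BddAbove ((fun p : Sys (Fin (m + 1)) V × V => (sol p.1 p.2).length) ''
      ({E | SizeLe n E} ×ˢ Set.univ)) := ((hfin.prod Set.finite_univ).image _).bddAbove
  refine ⟨C, fun A E hE τ hτ => ?_⟩
  have hl := length_letters hE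
  let r : A → Fin (m + 1) := fun a => ⟨(letters E).idxOf a,
    Nat.lt_succ_of_le (List.idxOf_le_length.trans hl)⟩
  let d : Fin (m + 1) → List A := fun i => ((letters E)[i.1]?).toList
  have hdr : ∀ a ∈ letters E, d (r a) = [a] := by
    intro a ha
    simp [d, r, List.getElem?_idxOf ha]
  let E' : Sys (Fin (m + 1)) V :=
    E.map (fun e => (e.1.map (Sum.map r id), e.2.map (Sum.map r id)))
  have hE' : SizeLe n E' := by
    refine ⟨by simpa [E'] using hE.1, ?_⟩
    intro e he
    obtain ⟨e₀, he₀, rfl⟩ := List.mem_map.1 he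
    simpa using hE.2 e₀ he₀
  have hs : Solves (sol E') E' := by
    refine hsol E' ⟨fun x => (τ x).map r, ?_⟩
    intro e he
    obtain ⟨e₀, he₀, rfl⟩ := List.mem_map.1 he
    simp only [subst_map_letters, hτ e₀ he₀]
  refine ⟨fun x => (sol E' x).flatMap d, ?_, fun x => ⟨?_, ?_⟩⟩
  · intro e he
    rw [subst_dec r d _ e.1 (fun a ha => hdr a (mem_letters.2 ⟨e, he, Or.inl ha⟩)),
      subst_dec r d _ e.2 (fun a ha => hdr a (mem_letters.2 ⟨e, he, Or.inr ha⟩))]
    exact congrArg _ (hs _ (List.mem_map.2 ⟨e, he, rfl⟩))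
  · have h1 : (sol E' x).length ≤ C := hC ⟨(E', x), ⟨hE', trivial⟩, rfl⟩
    refine le_trans ?_ h1
    show ((sol E' x).flatMap d).length ≤ _
    generalize sol E' x = l
    induction l with
    | nil => simp
    | cons i l ih =>
      have : (d i).length ≤ 1 := by
        simp only [d]; cases (letters E)[i.1]? <;> simp
      simp only [List.flatMap_cons, List.length_append, List.length_cons]; omega
  · intro a ha
    obtain ⟨i, -, hi⟩ := List.mem_flatMap.1 ha
    simp only [d, Option.mem_toList] at hi
    exact List.mem_of_getElem? hi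

/-- `y` is a product of at most `k` words of `F`. -/
def FL (F : Set (List A)) (k : ℕ) (y : List A) : Prop :=
  ∃ l : List (List A), l.length ≤ k ∧ (∀ f ∈ l, f ∈ F) ∧ l.flatten = y

/-- Closed under factors. -/
def Factorial (F : Set (List A)) : Prop := ∀ y z : List A, z <:+: y → y ∈ F → z ∈ F

lemma FL.mono {F : Set (List A)} {k k' : ℕ} {y : List A} (h : FL F k y) (hk : k ≤ k') :
    FL F k' y := by
  obtain ⟨l, h1, h2, h3⟩ := h
  exact ⟨l, h1.trans hk, h2, h3⟩

lemma FL.mono_set {F F' : Set (List A)} {k : ℕ} {y : List A} (h : FL F k y) (hF : F ⊆ F') :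
    FL F' k y := by
  obtain ⟨l, h1, h2, h3⟩ := h
  exact ⟨l, h1, fun f hf => hF (h2 f hf), h3⟩

lemma FL.nil (F : Set (List A)) (k : ℕ) : FL F k [] := ⟨[], by simp, by simp, rfl⟩

lemma FL.of_mem {F : Set (List A)} {y : List A} (h : y ∈ F) : FL F 1 y :=
  ⟨[y], by simp, by simpa using h, by simp⟩

lemma FL.append {F : Set (List A)} {k k' : ℕ} {y z : List A} (h : FL F k y) (h' : FL F k' z) :
    FL F (k + k') (y ++ z) := by
  obtain ⟨l, h1, h2, h3⟩ := h
  obtain ⟨l', h1', h2', h3'⟩ := h'
  refine ⟨l ++ l', by simp; omega, ?_, by simp [h3, h3']⟩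
  intro f hf
  rcases List.mem_append.1 hf with hf | hf
  exacts [h2 f hf, h2' f hf]

lemma FL.flatten {F : Set (List A)} {k : ℕ} {l : List (List A)} (h : ∀ y ∈ l, FL F k y) :
    FL F (l.length * k) l.flatten := by
  induction l with
  | nil => exact FL.nil _ _
  | cons y l ih =>
    have := (h y List.mem_cons_self).append (ih (fun z hz => h z (List.mem_cons_of_mem _ hz)))
    simpa [Nat.succ_mul, add_comm] using this

lemma FL.of_prefix {F : Set (List A)} (hF : Factorial F) {k : ℕ} {y z : List A}
    (h : FL F k y) (hz : z <+: y) : FL F k z := by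
  obtain ⟨l, h1, h2, rfl⟩ := h
  induction l generalizing z k with
  | nil => simp at hz; subst hz; exact FL.nil _ _
  | cons f l ih =>
    simp only [List.flatten_cons, List.length_cons] at hz h1
    have hf := h2 f List.mem_cons_self
    rcases List.prefix_or_prefix_of_prefix hz (List.prefix_append f _) with h | ⟨t, rfl⟩
    · exact (FL.of_mem (hF _ _ h.isInfix hf)).mono (by omega)
    · have := ih (k := k - 1) (z := t) (by omega) (fun g hg => h2 g (List.mem_cons_of_mem _ hg))
        ((List.prefix_append_right_inj f).1 hz)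
      exact ((FL.of_mem hf).append this).mono (by omega)

lemma FL.of_suffix {F : Set (List A)} (hF : Factorial F) {k : ℕ} {y z : List A}
    (h : FL F k y) (hz : z <:+ y) : FL F k z := by
  obtain ⟨l, h1, h2, rfl⟩ := h
  induction l generalizing z k with
  | nil => simp at hz; subst hz; exact FL.nil _ _
  | cons f l ih =>
    simp only [List.flatten_cons, List.length_cons] at hz h1
    have hf := h2 f List.mem_cons_self
    rcases List.suffix_or_suffix_of_suffix hz (List.suffix_append f _) with h | ⟨t, rfl⟩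
    · exact (ih (k := k - 1) (by omega) (fun g hg => h2 g (List.mem_cons_of_mem _ hg)) h).mono
        (by omega)
    · have ht : t <:+ f := by
        obtain ⟨s, hs⟩ := hz
        rw [← List.append_assoc] at hs
        exact ⟨s, List.append_cancel_right hs⟩
      exact ((FL.of_mem (hF _ _ ht.isInfix hf)).append
        (⟨l, le_rfl, fun g hg => h2 g (List.mem_cons_of_mem _ hg), rfl⟩ :
          FL F l.length l.flatten)).mono (by omega)

lemma FL.of_infix {F : Set (List A)} (hF : Factorial F) {k : ℕ} {y z : List A}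
    (h : FL F k y) (hz : z <:+: y) : FL F k z := by
  obtain ⟨t, h1, h2⟩ := List.infix_iff_prefix_suffix.1 hz
  exact (h.of_suffix hF h2).of_prefix hF h1

end Pool.Agent.Lib.MP_ab3cdc_lc
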