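import Pool.Agent.Lib.MP_ab3cdc_lc.Seg

namespace Pool.Agent.Lib.MP_ab3cdc_lc

variable {A V : Type}

/-- `σ` has minimal total length among the solutions that agree with it on the variables
with value in `F`. -/
def MinSol [Fintype V] (E : Sys A V) (F : Set (List A)) (σ : V → List A) : Prop :=
  Solves σ E ∧ ∀ σ', Solves σ' E → (∀ x, σ x ∈ F → σ' x = σ x) →
    ∑ x, (σ x).length ≤ ∑ x, (σ' x).length

/-- The bound on the exponent of periodicity relative to `F`. -/
theorem exponent_bound (V : Type) [Fintype V] (n : ℕ) : ∃ K : ℕ, ∀ (A : Type) (E : Sys A V),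
    SizeLe n E → ∀ F : Set (List A), Factorial F → (∀ a, [a] ∈ F) → ∀ σ, MinSol E F σ →
    ∀ (ω : ℕ → A) (p N : ℕ), 0 < p → (∀ i, ω (i + p) = ω i) →
      (∀ q, 0 < q → q < p → ¬ ∀ j, ω (j + q) = ω j) → p ≤ N → seg ω 0 N ∉ F →
      ∀ x l, seg ω 0 l <:+: σ x → l ≤ K * N := by
  classical
  obtain ⟨c, hc⟩ := run_shrink V (3 * n)
  refine ⟨c * (12 * n) + 2, fun A E hE F hF hF1 σ hσ ω p N hp0 hp hprim hpN hN x₀ l hl => ?_⟩
  set u := seg ω 0 p with hu
  have hul : u.length = p := by simp [hu]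
  let M : List A → Prop := fun y => u <:+ y
  let lg : V → Prop := fun x => u <:+: σ x ∧ σ x ∉ F
  have hdec : ∀ x, ∃ P B S : List A, lg x → σ x = P ++ B ++ S ∧ M P ∧ M (P ++ B) ∧
      (∀ z, z <+: σ x → M z → P.length ≤ z.length) ∧
      (∀ z, z <+: σ x → M z → z.length ≤ (P ++ B).length) := by
    intro x
    by_cases hx : lg x
    · obtain ⟨s, t, hst⟩ := hx.1
      have hex : ∃ z, z <+: σ x ∧ M z := ⟨s ++ u, ⟨t, hst⟩, List.suffix_append _ _⟩
      obtain ⟨P, hP1, hP2, hP3⟩ := exists_min_prefix M _ hex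
      obtain ⟨Q, hQ1, hQ2, hQ3⟩ := exists_max_prefix M _ hex
      obtain ⟨B, rfl⟩ := List.prefix_of_prefix_length_le hP1 hQ1 (hP3 Q hQ1 hQ2)
      obtain ⟨S, hS⟩ := hQ1
      exact ⟨P, B, S, fun _ => ⟨hS.symm, hP2, hQ2, hP3, hQ3⟩⟩
    · exact ⟨[], [], [], fun h => absurd h hx⟩
  choose P B S hPBS using hdec
  let F' : Set (List A) := {y | ¬ seg ω 0 N <:+: y}
  have hFF' : F ⊆ F' := fun y hy h => hN (hF _ _ h hy)
  have hF' : Factorial F' := fun y z hz hy h => hy (h.trans hz)
  have huF' : ∀ y, ¬ u <:+: y → y ∈ F' := fun y hy h =>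
    hy ((seg_prefix ω hpN).isInfix.trans h)
  have h1 : ∀ x, lg x → P x ≠ [] ∧ (∀ c, M (c ++ P x)) ∧ M (P x ++ B x) ∧
      ∀ c z, z <+: B x → (M (c ++ P x ++ z) ↔ M (P x ++ z)) := by
    intro x hx
    obtain ⟨e0, e1, e2, e3, e4⟩ := hPBS x hx
    have e5 : p ≤ (P x).length := hul ▸ e1.length_le
    refine ⟨?_, fun c => e1.trans (List.suffix_append _ _), e2, fun c z _ => ⟨fun h => ?_,
      fun h => ?_⟩⟩
    · intro h; rw [h] at e5; simp at e5; omega
    · rw [List.append_assoc] at h
      exact List.suffix_of_suffix_length_le h (List.suffix_append _ _) (by simp; omega)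
    · rw [List.append_assoc]
      exact h.trans (List.suffix_append _ _)
  have hk1 : ∀ x, lg x → FL F' 2 (P x) ∧ FL F' 2 (S x) := by
    intro x hx
    obtain ⟨e0, e1, e2, e3, e4⟩ := hPBS x hx
    constructor
    · have hne := (h1 x hx).1
      rw [← List.dropLast_append_getLast hne]
      refine (FL.of_mem (huF' _ ?_)).append (FL.of_mem (hFF' (hF1 _)))
      rintro ⟨s, t, hst⟩
      have e5 : s ++ u <+: σ x := by
        rw [e0, List.append_assoc, ← List.dropLast_append_getLast hne, ← hst]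
        simp only [List.append_assoc]
        exact (List.prefix_append_right_inj _).2 (List.prefix_append _ _)
      have e6 := e3 _ e5 (List.suffix_append _ _)
      have e7 := congrArg List.length hst
      have e8 : 0 < (P x).length := List.length_pos_iff.2 hne
      simp at e6 e7
      omega
    · refine (FL.of_mem (huF' _ ?_)).mono (by omega)
      rintro ⟨s, t, hst⟩
      have e5 : P x ++ B x ++ s ++ u <+: σ x := by
        rw [e0, ← hst]
        simp only [List.append_assoc]
        exact (List.prefix_append_right_inj _).2 ((List.prefix_append_right_inj _).2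
          ((List.prefix_append_right_inj _).2 (List.prefix_append _ _)))
      have e6 := e4 _ e5 (List.suffix_append _ _)
      simp only [List.length_append] at e6
      omega
  have hk2 : ∀ x, ¬ lg x → FL F' 2 (σ x) := by
    intro x hx
    refine (FL.of_mem ?_).mono (by omega)
    by_cases h : σ x ∈ F
    · exact hFF' h
    · exact huF' _ (fun h' => hx ⟨h', h⟩)
  obtain ⟨E', hE1, hE2, hE3, -⟩ := parse hE hσ.1 M lg P B S (fun x hx => (hPBS x hx).1) h1 F' 2
    (fun a => (FL.of_mem (hFF' (hF1 a))).mono (by omega)) hk1 hk2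
  set T := 3 * n * 2 * (N + p) / p with hT
  have hRB : ∀ y : List (List A), FL F' (3 * n * 2) y.flatten → RB u T y := by
    intro y hy t ht
    have e1 := infix_flatten ht
    rw [hu, seg_pow hp] at e1
    have e2 := seg_length_le hp hp0 (hy.of_infix hF' e1)
    exact (Nat.le_div_iff_mul_le hp0).2 e2
  obtain ⟨τ', hτ1, hτ2⟩ := hc (List A) u E' T (fun e he => ⟨(hE3 e he).1, (hE3 e he).2.1,
    hRB _ (hE3 e he).2.2.1, hRB _ (hE3 e he).2.2.2⟩) _ hE1
  have hfl : ∀ x, lg x → (cut M (P x) [] (B x)).1.flatten = B x := by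
    intro x hx
    have e1 := cut_flatten M (P x) [] (B x)
    rwa [cut_rest' M _ _ (h1 x hx).2.2.1, List.append_nil, List.nil_append] at e1
  have hle : ∀ x ∈ (Finset.univ : Finset V),
      (@ite _ (lg x) (Classical.propDecidable _) (P x ++ (τ' x).flatten ++ S x) (σ x)).length ≤
        (σ x).length := by
    intro x _
    split_ifs with hx
    · have e1 := (sublist_flatten_length (hτ2 x).1 (cut_ne_nil M _ _ _)).1
      rw [hfl x hx] at e1
      rw [(hPBS x hx).1]
      simp only [List.length_append]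
      omega
    · exact le_rfl
  have hge := hσ.2 _ (hE2 τ' hτ1) (fun x hx => if_neg (fun h : lg x => h.2 hx))
  have heq := (Finset.sum_eq_sum_iff_of_le hle).1 (le_antisymm (Finset.sum_le_sum hle) hge)
  by_cases hx : σ x₀ ∈ F
  · have : l < N := by
      by_contra hcon
      exact hN (hF _ _ ((seg_prefix ω (not_lt.1 hcon)).isInfix.trans hl) hx)
    nlinarith [Nat.zero_le (c * (12 * n) * N)]
  by_cases hlp : l < p
  · nlinarith [Nat.zero_le (c * (12 * n) * N)]
  have hlg : lg x₀ := ⟨(seg_prefix ω (not_lt.1 hlp)).isInfix.trans hl, hx⟩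
  obtain ⟨e0, e1, e2, e3, e4⟩ := hPBS x₀ hlg
  have hτeq : τ' x₀ = (cut M (P x₀) [] (B x₀)).1 := by
    refine (sublist_flatten_length (hτ2 x₀).1 (cut_ne_nil M _ _ _)).2 ?_
    have e5 := heq x₀ (Finset.mem_univ _)
    rw [if_pos hlg, e0] at e5
    rw [hfl x₀ hlg]
    simp only [List.length_append] at e5
    omega
  obtain ⟨t, ht⟩ : ∃ t, l / p = t + 1 :=
    ⟨l / p - 1, by have := (Nat.le_div_iff_mul_le hp0).2 (show 1 * p ≤ l by omega); omega⟩
  have hl1 : (t + 1) * p ≤ l := ht ▸ Nat.div_mul_le_self l p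
  have hl2 : l < (t + 1 + 1) * p := by
    rw [← ht]; exact Nat.lt_succ_iff.1 (by
      have := Nat.lt_div_mul_add (a := l) hp0
      rw [Nat.succ_mul]; omega)
  have h2 : seg ω 0 ((t + 1) * p) = u ++ seg ω 0 (t * p) := by
    have e3 := seg_shift hp 1 0 (t * p)
    simp only [zero_add, one_mul] at e3
    rw [Nat.succ_mul, add_comm, seg_add, zero_add, e3]
  have h3 : seg ω 0 ((t + 1) * p) = seg ω 0 (t * p) ++ u := by
    have e3 := seg_shift hp t 0 p
    rw [Nat.succ_mul, seg_add, e3]
  obtain ⟨s, s', hs⟩ := (seg_prefix ω hl1).isInfix.trans hl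
  have h4 : s ++ u <+: σ x₀ := by
    rw [← hs, h2]
    simp only [List.append_assoc]
    exact (List.prefix_append_right_inj _).2 (List.prefix_append _ _)
  have h5 : s ++ u ++ seg ω 0 (t * p) <+: σ x₀ := by
    rw [← hs, h2]
    simp only [List.append_assoc]
    exact (List.prefix_append_right_inj _).2 ((List.prefix_append_right_inj _).2
      (List.prefix_append _ _))
  have h6 : M (s ++ u ++ seg ω 0 (t * p)) := by
    rw [List.append_assoc, ← h2, h3, ← List.append_assoc]
    exact List.suffix_append _ _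
  have h7 : P x₀ <+: σ x₀ := by rw [e0, List.append_assoc]; exact List.prefix_append _ _
  have h8 : P x₀ ++ B x₀ <+: σ x₀ := by rw [e0]; exact List.prefix_append _ _
  obtain ⟨B₁, hB₁⟩ := List.prefix_of_prefix_length_le h7 h4 (e3 _ h4 (List.suffix_append _ _))
  obtain ⟨B₂, hB₂⟩ := List.prefix_of_prefix_length_le h5 h8 (e4 _ h5 h6)
  have h9 : B x₀ = B₁ ++ (seg ω 0 (t * p) ++ B₂) := by
    rw [← hB₁] at hB₂
    simp only [List.append_assoc] at hB₂
    exact (List.append_cancel_left hB₂).symm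
  have h10 : List.replicate t u <:+: τ' x₀ := by
    rw [hτeq, h9, cut_append, cut_rest' M _ _ (by rw [hB₁]; exact List.suffix_append _ _),
      cut_append, hB₁]
    simp only [M, hu, cut_pow hp hp0 hprim]
    rw [← List.append_assoc]
    exact List.infix_append _ _ _
  have h11 := (hτ2 x₀).2 t h10
  have h12 : T * p ≤ 3 * n * 2 * (N + p) := Nat.div_mul_le_self _ _
  have h13 : t * p ≤ c * (T * p) := by rw [← mul_assoc]; exact Nat.mul_le_mul_right _ h11
  have h14 : c * (T * p) ≤ c * (12 * n * N) := Nat.mul_le_mul_left _ (by nlinarith)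
  nlinarith

/-- A word outside `F` all of whose periods are at least half its length. -/
def Sparse (F : Set (List A)) (g : List A) : Prop :=
  g ∉ F ∧ ∀ q, 0 < q → g.HasPeriod q → g.length ≤ 2 * q

open Classical in
lemma Sparse.card_le {F : Set (List A)} (hF : Factorial F) {g : List A} (hg : Sparse F g)
    {f : List A} (hf : f ∈ F) (c : List A) :
    ((Finset.range f.length).filter (fun j => g <:+ c ++ f.take (j + 1))).card ≤ 2 := by
  have hlt : ∀ j, g <:+ c ++ f.take (j + 1) → j < f.length → j + 1 < g.length := by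
    intro j hj hjf
    by_contra hcon
    have h1 : g <:+ f.take (j + 1) :=
      List.suffix_of_suffix_length_le hj (List.suffix_append _ _) (by simp; omega)
    exact hg.1 (hF _ _ (h1.isInfix.trans (List.take_prefix _ _).isInfix) hf)
  have hgap : ∀ i j, g <:+ c ++ f.take (i + 1) → g <:+ c ++ f.take (j + 1) → i < j →
      j < f.length → g.length ≤ 2 * (j - i) := by
    intro i j hi hj hij hjf
    refine hg.2 _ (by omega) ?_
    rw [List.hasPeriod_iff_getElem?]
    intro k hk
    obtain ⟨s, hs⟩ := hi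
    obtain ⟨s', hs'⟩ := hj
    have l1 := congrArg List.length hs
    have l2 := congrArg List.length hs'
    simp only [List.length_append, List.length_take] at l1 l2
    have e1 : g[k + (j - i)]? = (c ++ f)[s.length + (k + (j - i))]? := by
      have : (s ++ g)[s.length + (k + (j - i))]? = g[k + (j - i)]? := by
        rw [List.getElem?_append_right (by omega)]; congr 1; omega
      rw [← this, hs]
      conv_rhs => rw [← List.take_append_drop (i + 1) f, ← List.append_assoc]
      rw [List.getElem?_append_left (l₂ := List.drop (i + 1) f) (by simp; omega)]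
    have e2 : g[k]? = (c ++ f)[s'.length + k]? := by
      have : (s' ++ g)[s'.length + k]? = g[k]? := by
        rw [List.getElem?_append_right (by omega)]; congr 1; omega
      rw [← this, hs']
      conv_rhs => rw [← List.take_append_drop (j + 1) f, ← List.append_assoc]
      rw [List.getElem?_append_left (l₂ := List.drop (j + 1) f) (by simp; omega)]
    rw [e1, e2]
    congr 1
    omega
  refine le_trans (Finset.card_le_card_of_injOn (t := Finset.range 2)
    (fun j => if 2 * (j + 1) < g.length then 0 else 1) ?_ ?_) (by simp)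
  · intro j _
    simp only [Finset.coe_range, Set.mem_Iio]
    split_ifs <;> omega
  · intro i hi j hj hij
    simp only [Finset.coe_filter, Finset.mem_range, Set.mem_ofPred_eq] at hi hj
    have a1 := hlt i hi.2 hi.1
    have a2 := hlt j hj.2 hj.1
    rcases lt_trichotomy i j with h | h | h
    · have := hgap i j hi.2 hj.2 h hj.1
      simp only at hij
      split_ifs at hij <;> omega
    · exact h
    · have := hgap j i hj.2 hi.2 h hi.1
      simp only at hij
      split_ifs at hij <;> omega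

lemma marks_le {F : Set (List A)} (hF : Factorial F) (G : Finset (List A))
    (hG : ∀ g ∈ G, Sparse F g) {k : ℕ} {y : List A} (hy : FL F k y) (c cur : List A) :
    (cut (fun y => ∃ g ∈ G, g <:+ y) c cur y).1.length ≤ k * (G.card * 2) := by
  classical
  have one : ∀ f ∈ F, ∀ c cur : List A,
      (cut (fun y => ∃ g ∈ G, g <:+ y) c cur f).1.length ≤ G.card * 2 := by
    intro f hf c cur
    rw [cut_length]
    refine le_trans (Finset.card_le_card (t := G.biUnion (fun g =>
      (Finset.range f.length).filter (fun j => g <:+ c ++ f.take (j + 1)))) ?_) ?_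
    · intro j hj
      simp only [Finset.mem_filter, Finset.mem_biUnion] at hj ⊢
      obtain ⟨h1, g, h2, h3⟩ := hj
      exact ⟨g, h2, h1, h3⟩
    · refine Finset.card_biUnion_le_card_mul _ _ _ (fun g hg => ?_)
      convert (hG g hg).card_le hF hf c
  obtain ⟨L, h1, h2, rfl⟩ := hy
  induction L generalizing k c cur with
  | nil => simp [cut]
  | cons f L ih =>
    obtain ⟨k', rfl⟩ : ∃ k', k = k' + 1 := ⟨k - 1, by simp at h1; omega⟩
    have h3 := ih (k := k') (c ++ f) (cut (fun y => ∃ g ∈ G, g <:+ y) c cur f).2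
      (by simpa using h1) (fun g hg => h2 g (List.mem_cons_of_mem _ hg))
    have h4 := one f (h2 f List.mem_cons_self) c cur
    rw [List.flatten_cons, cut_append, Nat.succ_mul]
    simp only [List.length_append]
    omega

/-- A marker can be found close to any position. -/
lemma exists_marker {F : Set (List A)} (hF : Factorial F) (hF0 : [] ∈ F) {K : ℕ} {x₁ : List A}
    (hK : ∀ (ω : ℕ → A) (p N : ℕ), 0 < p → (∀ i, ω (i + p) = ω i) →
      (∀ q, 0 < q → q < p → ¬ ∀ j, ω (j + q) = ω j) → p ≤ N → seg ω 0 N ∉ F →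
      ∀ l, seg ω 0 l <:+: x₁ → l ≤ K * N) (hF1 : ∀ a, [a] ∈ F)
    (hx : ¬ FL F (2 * K + 2) x₁) :
    ∃ m rest g, x₁ = m ++ rest ∧ g <:+ m ∧ FL F (2 * K + 2) m ∧ FL F 4 g ∧ Sparse F g := by
  classical
  have hx1 : x₁ ∉ F := fun h => hx ((FL.of_mem h).mono (by omega))
  obtain ⟨y, hy1, hy2, hy3⟩ := exists_min_prefix (fun y => y ∉ F) x₁ ⟨x₁, List.prefix_rfl, hx1⟩
  have hy0 : y ≠ [] := by rintro rfl; exact hy2 hF0
  have hyl : 0 < y.length := List.length_pos_iff.2 hy0
  have hy4 : y.dropLast ∈ F := by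
    by_contra h
    have := hy3 _ ((List.dropLast_prefix y).trans hy1) h
    simp at this; omega
  have hy5 : FL F 2 y := by
    rw [← List.dropLast_append_getLast hy0]
    exact (FL.of_mem hy4).append (FL.of_mem (hF1 _))
  have hex : ∃ p, 0 < p ∧ y.HasPeriod p := ⟨y.length, hyl, List.hasPeriod_of_length_le _ _ le_rfl⟩
  obtain ⟨hp0, hpy⟩ := Nat.find_spec hex
  have hmin : ∀ q, 0 < q → y.HasPeriod q → Nat.find hex ≤ q :=
    fun q h1 h2 => Nat.find_min' hex ⟨h1, h2⟩
  set p := Nat.find hex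
  by_cases hcase : y.length ≤ 2 * p
  · obtain ⟨rest, hrest⟩ := hy1
    refine ⟨y, rest, y, hrest.symm, List.suffix_rfl, hy5.mono (by omega), hy5.mono (by omega),
      hy2, fun q h1 h2 => ?_⟩
    have := hmin q h1 h2
    omega
  set N := y.length with hN
  let ω : ℕ → A := fun i => y[i % p]'(by have := Nat.mod_lt i hp0; omega)
  have hω : ∀ i, ω (i + p) = ω i := fun i => by simp [ω]
  have hωy : seg ω 0 N = y := by
    refine List.ext_getElem? (fun j => ?_)
    by_cases hj : j < N
    · rw [seg_getElem? ω hj, ← hpy.getElem?_mod p j y hj]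
      simp [ω]
    · rw [List.getElem?_eq_none (by simpa using hj), List.getElem?_eq_none (by omega)]
  have hper : ∀ q l, (∀ j, ω (j + q) = ω j) → (seg ω 0 l).HasPeriod q := by
    intro q l h
    rw [List.hasPeriod_iff_getElem?]
    intro i hi
    simp only [seg_length] at hi
    rw [seg_getElem? ω (by omega), seg_getElem? ω (by omega), ← add_assoc, h]
  have hprim : ∀ q, 0 < q → q < p → ¬ ∀ j, ω (j + q) = ω j := by
    intro q h1 h2 h3
    have := hmin q h1 (hωy ▸ hper q N h3)
    omega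
  have hNF : seg ω 0 (N - 1) ∈ F := by
    have h1 : y.dropLast = seg ω 0 (y.dropLast).length :=
      eq_seg_of_prefix ω (l := N) (by rw [hωy]; exact List.dropLast_prefix y)
    rw [List.length_dropLast] at h1
    exact h1 ▸ hy4
  obtain ⟨r, hr1, hr2, hr3⟩ := exists_max_prefix (fun z => z = seg ω 0 z.length) x₁
    ⟨y, hy1, hωy.symm⟩
  have hNl : N ≤ r.length := hr3 y hy1 hωy.symm
  set l := r.length with hl
  have hlK : l ≤ K * N := hK ω p N hp0 hω hprim (by omega) (hωy ▸ hy2) l (hr2 ▸ hr1.isInfix)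
  have hr4 : FL F (2 * K) r := by
    rw [hr2]
    refine FL_seg hω hp0 hF hNF (by omega) _ _ _ (hlK.trans ?_)
    have : N ≤ 2 * (N - p) := by omega
    nlinarith
  obtain ⟨rest', hrest⟩ := hr1
  rcases rest' with _ | ⟨b, rest⟩
  · rw [List.append_nil] at hrest
    exact absurd (hrest ▸ hr4.mono (by omega)) hx
  have hb : b ≠ ω l := by
    intro hb
    have h1 : r ++ [b] = seg ω 0 (r ++ [b]).length := by
      rw [List.length_append, seg_add, ← hl, ← hr2, hb]
      simp [seg]
    have := hr3 (r ++ [b]) ⟨rest, by simpa using hrest⟩ h1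
    simp at this; omega
  set j := (l - N) / p with hj
  have hj1 : j * p ≤ l - N := Nat.div_mul_le_self _ _
  have hj2 : l - N < j * p + p := Nat.lt_div_mul_add hp0
  set l' := l - j * p with hl'
  have hr5 : r = seg ω 0 (j * p) ++ seg ω 0 l' := by
    rw [← seg_shift hω j 0 l', ← seg_add, hr2]
    congr 1; omega
  refine ⟨r ++ [b], rest, seg ω 0 l' ++ [b], by simpa using hrest.symm, ?_,
    (hr4.append (FL.of_mem (hF1 b))).mono (by omega), ?_, ?_, ?_⟩
  · rw [hr5, List.append_assoc]
    exact List.suffix_append _ _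
  · exact (FL_seg hω hp0 hF hNF (by omega) 3 0 l' (by omega)).append (FL.of_mem (hF1 b))
  · intro h
    refine hy2 (hF _ _ ?_ h)
    rw [← hωy]
    exact ((seg_prefix ω (by omega)).trans (List.prefix_append _ _)).isInfix
  · intro q hq hper2
    by_contra hcon
    simp only [List.length_append, seg_length, List.length_singleton] at hcon
    have h1 : (seg ω 0 l').HasPeriod q :=
      List.HasPeriod.factor (u := []) (w := [b]) (by simpa using hper2)
    have h2 := (hper p l' hω).gcd h1 (by simp; omega)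
    have h3 : y.HasPeriod (p.gcd q) := by
      obtain ⟨t, ht⟩ := seg_prefix ω (i := 0) (show N ≤ l' by omega)
      rw [← hωy]
      exact List.HasPeriod.factor (u := []) (w := t) (by simpa [ht] using h2)
    have h4 := hmin _ (Nat.gcd_pos_of_pos_left q hp0) h3
    have h5 : p.gcd q = p := le_antisymm (Nat.gcd_le_left q hp0) h4
    obtain ⟨k, hk⟩ : p ∣ q := h5 ▸ Nat.gcd_dvd_right p q
    rw [List.hasPeriod_iff_getElem?] at hper2
    have h6 := hper2 (l' - q) (by simp; omega)
    rw [List.getElem?_append_left (by simp; omega), seg_getElem? ω (by omega),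
      List.getElem?_append_right (by simp; omega)] at h6
    have h7 : l' - q + q - (seg ω 0 l').length = 0 := by simp; omega
    rw [h7] at h6
    simp only [zero_add, List.getElem?_cons_zero, Option.some.injEq] at h6
    refine hb ?_
    rw [← h6, ← per_mul hω (k + j) (l' - q)]
    congr 1
    rw [add_mul, mul_comm k p, ← hk]
    omega

lemma exists_prefix_FL {F : Set (List A)} (hF1 : ∀ a, [a] ∈ F) {k : ℕ} {x : List A}
    (hx : ¬ FL F k x) : ∃ y z, x = y ++ z ∧ ¬ FL F k y ∧ FL F (k + 1) y := by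
  obtain ⟨y, ⟨z, hz⟩, hy2, hy3⟩ := exists_min_prefix (fun y => ¬ FL F k y) x
    ⟨x, List.prefix_rfl, hx⟩
  refine ⟨y, z, hz.symm, hy2, ?_⟩
  have hy0 : y ≠ [] := by rintro rfl; exact hy2 (FL.nil _ _)
  have hyl : 0 < y.length := List.length_pos_iff.2 hy0
  rw [← List.dropLast_append_getLast hy0]
  refine FL.append ?_ (FL.of_mem (hF1 _))
  by_contra h
  have := hy3 _ ((List.dropLast_prefix y).trans ⟨z, hz⟩) h
  simp at this; omega

lemma exists_suffix_FL {F : Set (List A)} (hF1 : ∀ a, [a] ∈ F) {k : ℕ} {x : List A}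
    (hx : ¬ FL F k x) : ∃ y z, x = y ++ z ∧ ¬ FL F k z ∧ FL F (k + 1) z := by
  obtain ⟨z, ⟨y, hy⟩, hz2, hz3⟩ := exists_min_suffix (fun y => ¬ FL F k y) x
    ⟨x, List.suffix_rfl, hx⟩
  refine ⟨y, z, hy.symm, hz2, ?_⟩
  rcases z with _ | ⟨a, z⟩
  · exact FL.nil _ _
  · rw [add_comm]
    refine (FL.of_mem (hF1 a)).append (z := z) ?_
    by_contra h
    have := hz3 _ ((List.suffix_cons a z).trans ⟨y, hy⟩) h
    simp at this

/-- The main combinatorial theorem: every solution can be replaced by one that has the same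
values on the variables with value in the factorial language `F`, and whose values are products
of boundedly many words of `F`. -/
theorem core (V : Type) [Finite V] (n : ℕ) : ∃ C : ℕ, ∀ (A : Type) (E : Sys A V),
    SizeLe n E → ∀ F : Set (List A), Factorial F → [] ∈ F → (∀ a, [a] ∈ F) →
    ∀ σ₀, Solves σ₀ E → ∃ σ', Solves σ' E ∧ (∀ x, σ₀ x ∈ F → σ' x = σ₀ x) ∧
      ∀ x, FL F C (σ' x) := by
  classical
  let _ : Fintype V := Fintype.ofFinite V
  obtain ⟨K, hK⟩ := exponent_bound V n
  set k := 2 * (2 * K + 2) + 5 with hk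
  set D := k * ((2 * Fintype.card V) * 2) with hD
  obtain ⟨C, hC⟩ := bounded_solution V (3 * n * (D + 1) + 1 + n)
  refine ⟨k + C * (3 * n * k) + k, fun A E hE F hF hF0 hF1 σ₀ hσ₀ => ?_⟩
  obtain ⟨σ, ⟨hσ1, hσ2⟩, hσ3⟩ := (measure (fun σ : V → List A => ∑ x, (σ x).length)).wf.has_min
    {σ | Solves σ E ∧ ∀ x, σ₀ x ∈ F → σ x = σ₀ x} ⟨σ₀, hσ₀, fun _ _ => rfl⟩
  have hmin : MinSol E F σ := ⟨hσ1, fun σ' h1 h2 => not_lt.1 (hσ3 σ' ⟨h1, fun x hx => by
    rw [h2 x (by rwa [hσ2 x hx]), hσ2 x hx]⟩)⟩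
  let lg : V → Prop := fun x => ¬ FL F k (σ x)
  have hdec : ∀ x, ∃ P B S g g' : List A, lg x → σ x = P ++ B ++ S ∧ g <:+ P ∧ g' <:+ P ++ B ∧
      ¬ FL F 4 P ∧ FL F k P ∧ FL F k S ∧ FL F 4 g ∧ FL F 4 g' ∧ Sparse F g ∧ Sparse F g' := by
    intro x
    by_cases hx : lg x
    swap
    · exact ⟨[], [], [], [], [], fun h => absurd h hx⟩
    have hm : ∀ x₁, x₁ <:+: σ x → ¬ FL F (2 * K + 2) x₁ → ∃ m rest g, x₁ = m ++ rest ∧ g <:+ m ∧
        FL F (2 * K + 2) m ∧ FL F 4 g ∧ Sparse F g := fun x₁ h1 h2 =>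
      exists_marker hF hF0 (fun ω p N a1 a2 a3 a4 a5 l hl =>
        hK A E hE F hF hF1 σ hmin ω p N a1 a2 a3 a4 a5 x l (hl.trans h1)) hF1 h2
    obtain ⟨x₀, x₁, e1, e2, e3⟩ := exists_prefix_FL hF1 (k := 4) (x := σ x)
      (fun h => hx (h.mono (by omega)))
    obtain ⟨m, rest, g, e4, e5, e6, e7, e8⟩ := hm x₁ ⟨x₀, [], by simp [e1]⟩
      (fun h => hx (e1 ▸ (e3.append h).mono (by omega)))
    obtain ⟨B₀, x₂, f1, f2, f3⟩ := exists_suffix_FL hF1 (k := 2 * K + 2) (x := rest)
      (fun h => hx (by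
        rw [e1, e4]
        exact (e3.append (e6.append h)).mono (by omega)))
    obtain ⟨m', S, g', f4, f5, f6, f7, f8⟩ := hm x₂ ⟨x₀ ++ m ++ B₀, [], by simp [e1, e4, f1]⟩ f2
    refine ⟨x₀ ++ m, B₀ ++ m', S, g, g', fun _ => ⟨by simp [e1, e4, f1, f4],
      e5.trans (List.suffix_append _ _), ?_, fun h => e2 (h.of_prefix hF (List.prefix_append _ _)),
      (e3.append e6).mono (by omega), ?_, e7, f7, e8, f8⟩⟩
    · rw [← List.append_assoc]
      exact f5.trans (List.suffix_append _ _)
    · exact (f3.of_suffix hF ⟨m', f4.symm⟩).mono (by omega)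
  choose P B S g g' hd using hdec
  let G : Finset (List A) :=
    (Finset.univ.filter lg).image g ∪ (Finset.univ.filter lg).image g'
  have hG : ∀ h ∈ G, FL F 4 h ∧ Sparse F h := by
    intro h hh
    simp only [G, Finset.mem_union, Finset.mem_image, Finset.mem_filter] at hh
    rcases hh with ⟨x, hx, rfl⟩ | ⟨x, hx, rfl⟩
    · obtain ⟨-, -, -, -, -, -, a, -, b, -⟩ := hd x hx.2
      exact ⟨a, b⟩
    · obtain ⟨-, -, -, -, -, -, -, a, -, b⟩ := hd x hx.2
      exact ⟨a, b⟩
  have hGc : G.card ≤ 2 * Fintype.card V := by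
    have h1 := Finset.card_union_le ((Finset.univ.filter lg).image g)
      ((Finset.univ.filter lg).image g')
    have h2 := Finset.card_image_le (s := Finset.univ.filter lg) (f := g)
    have h3 := Finset.card_image_le (s := Finset.univ.filter lg) (f := g')
    have h4 := Finset.card_le_univ (Finset.univ.filter lg)
    simp only [G]
    omega
  let M : List A → Prop := fun y => ∃ h ∈ G, h <:+ y
  have h1 : ∀ x, lg x → P x ≠ [] ∧ (∀ c, M (c ++ P x)) ∧ M (P x ++ B x) ∧
      ∀ c z, z <+: B x → (M (c ++ P x ++ z) ↔ M (P x ++ z)) := by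
    intro x hx
    obtain ⟨a0, a1, a2, a3, -⟩ := hd x hx
    refine ⟨fun h => a3 (h ▸ FL.nil _ _), fun c => ⟨g x, ?_, a1.trans (List.suffix_append _ _)⟩,
      ⟨g' x, ?_, a2⟩, fun c z _ => ⟨?_, ?_⟩⟩
    · simp only [G, Finset.mem_union, Finset.mem_image, Finset.mem_filter]
      exact Or.inl ⟨x, ⟨Finset.mem_univ _, hx⟩, rfl⟩
    · simp only [G, Finset.mem_union, Finset.mem_image, Finset.mem_filter]
      exact Or.inr ⟨x, ⟨Finset.mem_univ _, hx⟩, rfl⟩
    · rintro ⟨h, hh, hs⟩
      rw [List.append_assoc] at hs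
      rcases List.suffix_or_suffix_of_suffix hs (List.suffix_append _ _) with h2 | h2
      · exact ⟨h, hh, h2⟩
      · exact absurd (((hG h hh).1.of_suffix hF h2).of_prefix hF (List.prefix_append _ _)) a3
    · rintro ⟨h, hh, hs⟩
      rw [List.append_assoc]
      exact ⟨h, hh, hs.trans (List.suffix_append _ _)⟩
  obtain ⟨E', hE1, hE2, hE3, hE4⟩ := parse hE hσ1 M lg P B S (fun x hx => (hd x hx).1) h1 F k
    (fun a => (FL.of_mem (hF1 a)).mono (by omega))
    (fun x hx => ⟨(hd x hx).2.2.2.2.1, (hd x hx).2.2.2.2.2.1⟩) (fun x hx => not_not.1 hx)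
  have hsz := hE4 D (fun y hy c cur =>
    (marks_le hF G (fun h hh => (hG h hh).2) hy c cur).trans
      (Nat.mul_le_mul_left _ (Nat.mul_le_mul_right _ hGc)))
  obtain ⟨τ', hτ1, hτ2⟩ := hC (List A) E' hsz _ hE1
  refine ⟨_, hE2 τ' hτ1, fun x hx => ?_, fun x => ?_⟩
  · have : ¬ lg x := not_not.2 ((FL.of_mem (by rwa [hσ2 x hx])).mono (by omega))
    simp only [if_neg this, hσ2 x hx]
  · by_cases hx : lg x
    · simp only [if_pos hx]
      refine ((hd x hx).2.2.2.2.1.append ?_).append (hd x hx).2.2.2.2.2.1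
      refine (FL.flatten (k := 3 * n * k) (fun q hq => ?_)).mono
        (Nat.mul_le_mul_right _ (hτ2 x).1)
      obtain ⟨e, he, h2 | h2⟩ := mem_letters.1 ((hτ2 x).2 q hq)
      · exact (hE3 e he).2.2.1.of_infix hF (List.infix_of_mem_flatten (mem_subst_of_inl h2))
      · exact (hE3 e he).2.2.2.of_infix hF (List.infix_of_mem_flatten (mem_subst_of_inl h2))
    · simp only [if_neg hx]
      exact (not_not.1 hx).mono (by omega)

end Pool.Agent.Lib.MP_ab3cdc_lc
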