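import Pool.Agent.Lib.MP_ab3cdc_lc.Linear

namespace Pool.Agent.Lib.MP_ab3cdc_lc

variable {A V : Type}

section cut

open Classical in
/-- Cuts a word after every position whose left context satisfies `M`.
Arguments: the left context, the unfinished piece, the word. -/
noncomputable def cut (M : List A → Prop) : List A → List A → List A → List (List A) × List A
  | _, cur, [] => ([], cur)
  | c, cur, a :: x =>
    if M (c ++ [a]) then ((cur ++ [a]) :: (cut M (c ++ [a]) [] x).1, (cut M (c ++ [a]) [] x).2)
    else cut M (c ++ [a]) (cur ++ [a]) x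

variable (M : List A → Prop)

lemma cut_flatten (c cur x : List A) :
    (cut M c cur x).1.flatten ++ (cut M c cur x).2 = cur ++ x := by
  induction x generalizing c cur with
  | nil => simp [cut]
  | cons a x ih =>
    by_cases h : M (c ++ [a])
    · simp [cut, h, ih]
    · simp [cut, h, ih]

lemma cut_append (c cur x y : List A) : cut M c cur (x ++ y) =
    ((cut M c cur x).1 ++ (cut M (c ++ x) (cut M c cur x).2 y).1,
      (cut M (c ++ x) (cut M c cur x).2 y).2) := by
  induction x generalizing c cur with
  | nil => simp [cut]
  | cons a x ih =>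
    by_cases h : M (c ++ [a])
    · simp [cut, h, ih]
    · simp [cut, h, ih]

lemma cut_rest (c cur x : List A) (hx : x ≠ []) (h : M (c ++ x)) : (cut M c cur x).2 = [] := by
  obtain ⟨y, a, rfl⟩ : ∃ y a, x = y ++ [a] := ⟨_, _, (List.dropLast_append_getLast hx).symm⟩
  rw [cut_append]
  simp [cut, List.append_assoc, h]

lemma cut_rest' (c x : List A) (h : M (c ++ x)) : (cut M c [] x).2 = [] := by
  by_cases hx : x = []
  · subst hx; simp [cut]
  · exact cut_rest M c [] x hx h

lemma cut_congr (c c' cur x : List A) (h : ∀ z, z <+: x → (M (c ++ z) ↔ M (c' ++ z))) :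
    cut M c cur x = cut M c' cur x := by
  induction x generalizing c c' cur with
  | nil => simp [cut]
  | cons a x ih =>
    have h1 := h [a] (by simp)
    have h2 : ∀ cur, cut M (c ++ [a]) cur x = cut M (c' ++ [a]) cur x := fun cur =>
      ih _ _ cur (fun z hz => by simpa using h (a :: z) (by simpa using hz))
    by_cases h3 : M (c ++ [a])
    · simp [cut, h3, h1.1 h3, h2]
    · simp [cut, h3, mt h1.2 h3, h2]

lemma cut_ne_nil (c cur x : List A) : ∀ p ∈ (cut M c cur x).1, p ≠ [] := by
  induction x generalizing c cur with
  | nil => simp [cut]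
  | cons a x ih =>
    by_cases h : M (c ++ [a])
    · simp only [cut, h, if_true, List.mem_cons]
      rintro p (rfl | hp)
      · simp
      · exact ih _ _ p hp
    · simpa only [cut, h, if_false] using ih _ _

lemma cut_none (c cur x : List A) (h : ∀ z, z <+: x → z ≠ [] → ¬ M (c ++ z)) :
    cut M c cur x = ([], cur ++ x) := by
  induction x generalizing c cur with
  | nil => simp [cut]
  | cons a x ih =>
    have h1 := h [a] (by simp) (by simp)
    have h2 := ih (c ++ [a]) (cur ++ [a])
      (fun z hz _ => by simpa using h (a :: z) (by simpa using hz) (by simp))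
    simp [cut, h1, h2]

open Classical in
lemma cut_length (c cur x : List A) : (cut M c cur x).1.length =
    ((Finset.range x.length).filter (fun j => M (c ++ x.take (j + 1)))).card := by
  induction x using List.reverseRecOn with
  | nil => simp [cut]
  | append_singleton x a ih =>
    rw [cut_append]
    simp only [List.length_append, ih, List.length_singleton, Finset.range_add_one,
      Finset.filter_insert]
    have h1 : (Finset.range x.length).filter (fun j => M (c ++ (x ++ [a]).take (j + 1))) =
        (Finset.range x.length).filter (fun j => M (c ++ x.take (j + 1))) := by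
      refine Finset.filter_congr (fun j hj => ?_)
      rw [List.take_append_of_le_length (by simpa using hj)]
    have h2 : (x ++ [a]).take (x.length + 1) = x ++ [a] := List.take_of_length_le (by simp)
    rw [h1, h2]
    by_cases h : M (c ++ (x ++ [a]))
    · rw [if_pos h, Finset.card_insert_of_notMem (by simp)]
      simp [cut, h]
    · rw [if_neg h]
      simp [cut, h]

end cut

/-- Evaluation of a list of explicit words and variables. -/
def evW (B : V → List A) (U : List (List A ⊕ V)) : List A := U.flatMap (Sum.elim id B)

@[simp] lemma evW_nil (B : V → List A) : evW B [] = [] := rfl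

@[simp] lemma evW_inl (B : V → List A) (y : List A) (U : List (List A ⊕ V)) :
    evW B (Sum.inl y :: U) = y ++ evW B U := by simp [evW]

@[simp] lemma evW_inr (B : V → List A) (x : V) (U : List (List A ⊕ V)) :
    evW B (Sum.inr x :: U) = B x ++ evW B U := by simp [evW]

@[simp] lemma evW_append (B : V → List A) (U U' : List (List A ⊕ V)) :
    evW B (U ++ U') = evW B U ++ evW B U' := by simp [evW]

section tr

variable (M : List A → Prop) (B : V → List A)

/-- Cuts the explicit words of an equation side into pieces. -/
noncomputable def tr : List A → List A → List (List A ⊕ V) → List (List A ⊕ V)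
  | _, cur, [] => [Sum.inl cur]
  | c, cur, Sum.inl y :: U =>
    (cut M c cur y).1.map Sum.inl ++ tr (c ++ y) (cut M c cur y).2 U
  | c, cur, Sum.inr x :: U => Sum.inr x :: tr (c ++ B x) cur U

/-- Each variable starts and ends at a cut, and is cut in the way given by `τ`. -/
def Good (τ : V → List (List A)) : List A → List A → List (List A ⊕ V) → Prop
  | _, _, [] => True
  | c, cur, Sum.inl y :: U => Good τ (c ++ y) (cut M c cur y).2 U
  | c, cur, Sum.inr x :: U => cur = [] ∧ cut M c [] (B x) = (τ x, []) ∧ Good τ (c ++ B x) [] U

variable {M B}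

lemma tr_flatten {τ : V → List (List A)} (τ' : V → List (List A)) {c cur : List A}
    {U : List (List A ⊕ V)} (h : Good M B τ c cur U) :
    (subst τ' (tr M B c cur U)).flatten = cur ++ evW (fun x => (τ' x).flatten) U := by
  induction U generalizing c cur with
  | nil => simp [tr]
  | cons t U ih =>
    cases t with
    | inl y =>
      simp only [tr, subst_append, subst_map_inl, List.flatten_append, evW_inl, ih h]
      rw [← List.append_assoc, cut_flatten, List.append_assoc]
    | inr x =>
      obtain ⟨rfl, h2, h3⟩ := h
      simp [tr, ih h3]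

lemma tr_subst {τ : V → List (List A)} {c cur : List A}
    {U : List (List A ⊕ V)} (h : Good M B τ c cur U) :
    subst τ (tr M B c cur U) = (cut M c cur (evW B U)).1 ++ [(cut M c cur (evW B U)).2] := by
  induction U generalizing c cur with
  | nil => simp [tr, cut]
  | cons t U ih =>
    cases t with
    | inl y =>
      simp only [tr, subst_append, subst_map_inl, evW_inl, ih h, cut_append, List.append_assoc]
    | inr x =>
      obtain ⟨rfl, h2, h3⟩ := h
      simp [tr, ih h3, cut_append, h2]

lemma tr_nvars (c cur : List A) (U : List (List A ⊕ V)) : nvars (tr M B c cur U) = nvars U := by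
  induction U generalizing c cur with
  | nil => simp [tr, nvars]
  | cons t U ih =>
    cases t with
    | inl y =>
      have := ih (c ++ y) (cut M c cur y).2
      simp only [nvars] at this
      simp [tr, nvars, this]
    | inr x =>
      have := ih (c ++ B x) cur
      simp only [nvars] at this
      simp [tr, nvars, this]

lemma tr_length {D : ℕ} (c cur : List A) (U : List (List A ⊕ V))
    (h : ∀ y, Sum.inl y ∈ U → ∀ c cur, (cut M c cur y).1.length ≤ D) :
    (tr M B c cur U).length ≤ U.length * (D + 1) + 1 := by
  induction U generalizing c cur with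
  | nil => simp [tr]
  | cons t U ih =>
    have ih' := fun c cur => ih c cur (fun y hy => h y (List.mem_cons_of_mem _ hy))
    cases t with
    | inl y =>
      have h1 := ih' (c ++ y) (cut M c cur y).2
      have h2 := h y List.mem_cons_self c cur
      simp only [tr, List.length_append, List.length_map, List.length_cons, Nat.succ_mul]
      omega
    | inr x =>
      have h1 := ih' (c ++ B x) cur
      simp only [tr, List.length_cons, Nat.succ_mul]
      omega

lemma mem_subst_of_inl {σ : V → List A} {a : A} {U : List (A ⊕ V)} (h : Sum.inl a ∈ U) :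
    a ∈ subst σ U := List.mem_flatMap.2 ⟨_, h, by simp⟩

lemma tr_letter {τ : V → List (List A)} {c : List A}
    {U : List (List A ⊕ V)} (h : Good M B τ c [] U) {p : List A}
    (hp : Sum.inl p ∈ tr M B c [] U) : p <:+: evW (fun _ => []) U := by
  have h1 := tr_flatten (fun _ => []) h
  simp only [List.flatten_nil, List.nil_append] at h1
  rw [← h1]
  exact List.infix_of_mem_flatten (mem_subst_of_inl hp)

end tr

section star

variable (σ : V → List A) (lg : V → Prop) (P S : V → List A)

open Classical in
/-- Splits off the ends of the long variables and makes the other variables explicit. -/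
noncomputable def star (U : List (A ⊕ V)) : List (List A ⊕ V) :=
  U.flatMap (Sum.elim (fun a => [Sum.inl [a]])
    (fun x => if lg x then [Sum.inl (P x), Sum.inr x, Sum.inl (S x)] else [Sum.inl (σ x)]))

lemma star_nil : star σ lg P S [] = [] := rfl

lemma star_inl (a : A) (U : List (A ⊕ V)) :
    star σ lg P S (Sum.inl a :: U) = Sum.inl [a] :: star σ lg P S U := by simp [star]

lemma star_long {x : V} (h : lg x) (U : List (A ⊕ V)) : star σ lg P S (Sum.inr x :: U) =
    Sum.inl (P x) :: Sum.inr x :: Sum.inl (S x) :: star σ lg P S U := by simp [star, h]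

lemma star_short {x : V} (h : ¬ lg x) (U : List (A ⊕ V)) : star σ lg P S (Sum.inr x :: U) =
    Sum.inl (σ x) :: star σ lg P S U := by simp [star, h]

open Classical in
lemma evW_star (B : V → List A) (U : List (A ⊕ V)) : evW B (star σ lg P S U) =
    subst (fun x => if lg x then P x ++ B x ++ S x else σ x) U := by
  induction U with
  | nil => rfl
  | cons t U ih =>
    cases t with
    | inl a => simp [star_inl, ih]
    | inr x =>
      by_cases h : lg x
      · simp [star_long σ lg P S h, ih, h]
      · simp [star_short σ lg P S h, ih, h]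

lemma star_length (U : List (A ⊕ V)) : (star σ lg P S U).length ≤ 3 * U.length := by
  induction U with
  | nil => simp [star_nil]
  | cons t U ih =>
    cases t with
    | inl a => simp [star_inl]; omega
    | inr x =>
      by_cases h : lg x
      · simp [star_long σ lg P S h]; omega
      · simp [star_short σ lg P S h]; omega

lemma star_mem {U : List (A ⊕ V)} {y : List A} (h : Sum.inl y ∈ star σ lg P S U) :
    (∃ a, y = [a]) ∨ (∃ x, lg x ∧ (y = P x ∨ y = S x)) ∨ ∃ x, ¬ lg x ∧ y = σ x := by
  obtain ⟨t, -, ht⟩ := List.mem_flatMap.1 h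
  cases t with
  | inl a => exact Or.inl ⟨a, by simpa using ht⟩
  | inr x =>
    by_cases hx : lg x
    · exact Or.inr (Or.inl ⟨x, hx, by simpa [hx] using ht⟩)
    · exact Or.inr (Or.inr ⟨x, hx, by simpa [hx] using ht⟩)

lemma star_good {M : List A → Prop} {B : V → List A}
    (h1 : ∀ x, lg x → P x ≠ [] ∧ (∀ c, M (c ++ P x)) ∧ M (P x ++ B x) ∧
      ∀ c z, z <+: B x → (M (c ++ P x ++ z) ↔ M (P x ++ z)))
    (U : List (A ⊕ V)) (c cur : List A) :
    Good M B (fun x => (cut M (P x) [] (B x)).1) c cur (star σ lg P S U) := by
  induction U generalizing c cur with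
  | nil => simp [star_nil, Good]
  | cons t U ih =>
    cases t with
    | inl a => rw [star_inl]; exact ih _ _
    | inr x =>
      by_cases h : lg x
      · rw [star_long σ lg P S h]
        obtain ⟨h2, h3, h4, h5⟩ := h1 x h
        refine ⟨cut_rest M c cur _ h2 (h3 c), ?_, ih _ _⟩
        rw [cut_congr M (c ++ P x) (P x) [] (B x) (h5 c)]
        exact Prod.ext rfl (cut_rest' M _ _ h4)
      · rw [star_short σ lg P S h]; exact ih _ _

end star

lemma FL_evW {F : Set (List A)} {k : ℕ} {U : List (List A ⊕ V)}
    (h : ∀ y, Sum.inl y ∈ U → FL F k y) : FL F (U.length * k) (evW (fun _ => []) U) := by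
  induction U with
  | nil => exact FL.nil _ _
  | cons t U ih =>
    have ih' := ih (fun y hy => h y (List.mem_cons_of_mem _ hy))
    cases t with
    | inl y =>
      simpa [Nat.succ_mul, add_comm] using (h y List.mem_cons_self).append ih'
    | inr x =>
      simpa using ih'.mono (k' := (U.length + 1) * k) (by nlinarith)

open Classical in
/-- The parsing lemma: a solution whose long variables start and end at marks induces a system
over the alphabet of pieces. -/
theorem parse {E : Sys A V} {n : ℕ} (hE : SizeLe n E) {σ : V → List A} (hσ : Solves σ E)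
    (M : List A → Prop) (lg : V → Prop) (P B S : V → List A)
    (h0 : ∀ x, lg x → σ x = P x ++ B x ++ S x)
    (h1 : ∀ x, lg x → P x ≠ [] ∧ (∀ c, M (c ++ P x)) ∧ M (P x ++ B x) ∧
      ∀ c z, z <+: B x → (M (c ++ P x ++ z) ↔ M (P x ++ z)))
    (F : Set (List A)) (k : ℕ) (hk : ∀ a, FL F k [a])
    (hk1 : ∀ x, lg x → FL F k (P x) ∧ FL F k (S x)) (hk2 : ∀ x, ¬ lg x → FL F k (σ x)) :
    ∃ E' : Sys (List A) V, Solves (fun x => (cut M (P x) [] (B x)).1) E' ∧
      (∀ τ', Solves τ' E' →
        Solves (fun x => if lg x then P x ++ (τ' x).flatten ++ S x else σ x) E) ∧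
      (∀ e ∈ E', nvars e.1 ≤ 3 * n ∧ nvars e.2 ≤ 3 * n ∧
        FL F (3 * n * k) (subst (fun _ => []) e.1).flatten ∧
        FL F (3 * n * k) (subst (fun _ => []) e.2).flatten) ∧
      ∀ D, (∀ y, FL F k y → ∀ c cur, (cut M c cur y).1.length ≤ D) →
        SizeLe (3 * n * (D + 1) + 1 + n) E' := by
  let t : List (A ⊕ V) → List (List A ⊕ V) := fun U => tr M B [] [] (star σ lg P S U)
  have hg : ∀ U, Good M B (fun x => (cut M (P x) [] (B x)).1) [] [] (star σ lg P S U) :=
    fun U => star_good σ lg P S h1 U [] []
  have hσ' : (fun x => if lg x then P x ++ B x ++ S x else σ x) = σ := by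
    funext x
    split_ifs with h
    · exact (h0 x h).symm
    · rfl
  have hFL : ∀ U y, Sum.inl y ∈ star σ lg P S U → FL F k y := by
    intro U y hy
    rcases star_mem σ lg P S hy with ⟨a, rfl⟩ | ⟨x, hx, rfl | rfl⟩ | ⟨x, hx, rfl⟩
    exacts [hk a, (hk1 x hx).1, (hk1 x hx).2, hk2 x hx]
  have ha : ∀ U : List (A ⊕ V), U.length ≤ n → nvars (t U) ≤ 3 * n ∧
      FL F (3 * n * k) (subst (fun _ => []) (t U)).flatten := by
    intro U hU
    have hl := star_length σ lg P S U
    constructor
    · simp only [t, tr_nvars]
      exact List.countP_le_length.trans (by omega)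
    · simp only [t, tr_flatten _ (hg U), List.flatten_nil, List.nil_append]
      exact (FL_evW (hFL U)).mono (Nat.mul_le_mul_right _ (by omega))
  refine ⟨E.map (fun e => (t e.1, t e.2)), ?_, ?_, ?_, ?_⟩
  · intro e he
    obtain ⟨e₀, he₀, rfl⟩ := List.mem_map.1 he
    simp only [t, tr_subst (hg _), evW_star, hσ', hσ e₀ he₀]
  · intro τ' hτ' e he
    have := congrArg List.flatten (hτ' _ (List.mem_map.2 ⟨e, he, rfl⟩))
    simpa only [t, tr_flatten _ (hg _), evW_star, List.nil_append] using this
  · intro e he
    obtain ⟨e₀, he₀, rfl⟩ := List.mem_map.1 he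
    have h2 := hE.2 e₀ he₀
    exact ⟨(ha _ h2.1).1, (ha _ h2.2).1, (ha _ h2.1).2, (ha _ h2.2).2⟩
  · intro D hD
    have hb : ∀ U : List (A ⊕ V), U.length ≤ n → (t U).length ≤ 3 * n * (D + 1) + 1 + n := by
      intro U hU
      have h2 := tr_length (M := M) (B := B) [] [] _ (fun y hy => hD y (hFL U y hy))
      have h3 := star_length σ lg P S U
      have h4 : (star σ lg P S U).length * (D + 1) ≤ 3 * n * (D + 1) :=
        Nat.mul_le_mul_right _ (by omega)
      simp only [t]
      omega
    refine ⟨by have := hE.1; simp; omega, ?_⟩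
    intro e he
    obtain ⟨e₀, he₀, rfl⟩ := List.mem_map.1 he
    have h2 := hE.2 e₀ he₀
    exact ⟨hb _ h2.1, hb _ h2.2⟩

end Pool.Agent.Lib.MP_ab3cdc_lc
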