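import Mathlib

/-!
Definitions for the comparison of FC-UCQ languages with EP-C languages.
`A` is the terminal alphabet, `X` the set of variables, words are lists.
-/

namespace Pool.Agent.Lib.MP_ab3cdc_lc

variable {A X : Type}

/-- The image of the pattern `α` (a word over terminals and variables) under the substitution
that fixes the terminals and sends each variable `x` to the word `σ x`. -/
def subst (σ : X → List A) (α : List (A ⊕ X)) : List A :=
  α.flatMap (Sum.elim (fun a => [a]) σ)

/-- The language of the FC-CQ given by the list `φ` of its atoms `x ≐ α`: all `σ w` such that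
every `σ x` is a factor of `σ w` and every atom holds. -/
def cqLang (w : X) (φ : List (X × List (A ⊕ X))) : Set (List A) :=
  {u | ∃ σ : X → List A, (∀ x, σ x <:+: σ w) ∧ (∀ e ∈ φ, σ e.1 = subst σ e.2) ∧ σ w = u}

/-- The class of FC-UCQ languages: unions of the languages of a nonempty finite list of
FC-CQs, each a nonempty finite conjunction of atoms. -/
def fcUcqClass (A : Type) (w : X) : Set (Set (List A)) :=
  {L | ∃ Φ : List (List (X × List (A ⊕ X))), Φ ≠ [] ∧ (∀ φ ∈ Φ, φ ≠ []) ∧
    L = {u | ∃ φ ∈ Φ, u ∈ cqLang w φ}}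

/-- Formulas of the existential positive theory of concatenation. -/
inductive EPC (A X : Type) : Type
  | eqn (α β : List (A ⊕ X)) : EPC A X
  | conj (φ ψ : EPC A X) : EPC A X
  | disj (φ ψ : EPC A X) : EPC A X
  | ex (x : X) (φ : EPC A X) : EPC A X

/-- Satisfaction of an EP-C formula; variables range over all words. -/
def EPC.Sat : EPC A X → (X → List A) → Prop
  | .eqn α β, σ => subst σ α = subst σ β
  | .conj φ ψ, σ => φ.Sat σ ∧ ψ.Sat σ
  | .disj φ ψ, σ => φ.Sat σ ∨ ψ.Sat σ
  | .ex x φ, σ => ∃ τ : X → List A, (∀ y, y ≠ x → τ y = σ y) ∧ φ.Sat τ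

/-- The free variables of an EP-C formula. -/
def EPC.free : EPC A X → Set X
  | .eqn α β => {x | Sum.inr x ∈ α ∨ Sum.inr x ∈ β}
  | .conj φ ψ => φ.free ∪ ψ.free
  | .disj φ ψ => φ.free ∪ ψ.free
  | .ex x φ => φ.free \ {x}

/-- The class of EP-C languages: `{σ w | σ satisfies φ}` for formulas `φ` whose
free variable is `w`. -/
def epcClass (A : Type) (w : X) : Set (Set (List A)) :=
  {L | ∃ φ : EPC A X, φ.free = {w} ∧ L = {u | ∃ σ : X → List A, φ.Sat σ ∧ σ w = u}}

end Pool.Agent.Lib.MP_ab3cdc_lc
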