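import Pool.Agent.Lib.MP_ab3cdc_lc.Basic

namespace Pool.Agent.Lib.MP_ab3cdc_lc

variable {A V I : Type}

/-- Value of the linear form given by a list of unknowns. -/
def val (x : I → ℕ) (L : List I) : ℕ := (L.map x).sum

@[simp] lemma val_nil (x : I → ℕ) : val x [] = 0 := rfl

@[simp] lemma val_cons (x : I → ℕ) (i : I) (L : List I) : val x (i :: L) = x i + val x L := by
  simp [val]

lemma val_add (x y : I → ℕ) (L : List I) :
    val (fun i => x i + y i) L = val x L + val y L := by
  induction L with
  | nil => rfl
  | cons i L ih => simp [ih]; omega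

lemma val_zero (L : List I) : val (fun _ : I => 0) L = 0 := by
  induction L with
  | nil => rfl
  | cons i L ih => simp [ih]

lemma val_mono {x y : I → ℕ} (h : ∀ i, x i ≤ y i) (L : List I) : val x L ≤ val y L := by
  induction L with
  | nil => simp
  | cons i L ih => have := h i; simp; omega

lemma val_le {x : I → ℕ} {R : ℕ} (h : ∀ i, x i ≤ R) (L : List I) : val x L ≤ L.length * R := by
  induction L with
  | nil => simp
  | cons i L ih => have := h i; simp [Nat.succ_mul]; omega

/-- Removing the generators with trivial parameter part. -/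
lemma shrink_closure {K : Type} [Fintype K] (H : Set (I ⊕ K → ℕ)) (c : ℕ)
    (hc : ∀ h ∈ H, ∀ i, h (Sum.inl i) ≤ c) (z : I ⊕ K → ℕ) (hz : z ∈ AddSubmonoid.closure H) :
    ∃ z' ∈ AddSubmonoid.closure H, (∀ i, z' (Sum.inl i) ≤ z (Sum.inl i)) ∧
      (∀ k, z' (Sum.inr k) = z (Sum.inr k)) ∧
      ∀ i, z' (Sum.inl i) ≤ c * ∑ k, z (Sum.inr k) := by
  induction hz using AddSubmonoid.closure_induction with
  | mem h hh =>
    by_cases h0 : ∀ k, h (Sum.inr k) = 0
    · exact ⟨0, zero_mem _, by simp, by simp [h0], by simp⟩
    · push Not at h0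
      obtain ⟨k, hk⟩ := h0
      refine ⟨h, AddSubmonoid.subset_closure hh, fun _ => le_rfl, fun _ => rfl, fun i => ?_⟩
      have h1 : h (Sum.inr k) ≤ ∑ k, h (Sum.inr k) :=
        Finset.single_le_sum (f := fun k => h (Sum.inr k)) (fun _ _ => Nat.zero_le _)
          (Finset.mem_univ k)
      have h2 := hc h hh i
      have h3 : 1 ≤ ∑ k, h (Sum.inr k) := by omega
      nlinarith
  | zero => exact ⟨0, zero_mem _, by simp, by simp, by simp⟩
  | add x y _ _ ihx ihy =>
    obtain ⟨x', hx1, hx2, hx3, hx4⟩ := ihx
    obtain ⟨y', hy1, hy2, hy3, hy4⟩ := ihy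
    refine ⟨x' + y', add_mem hx1 hy1, fun i => ?_, fun k => ?_, fun i => ?_⟩
    · have := hx2 i; have := hy2 i; simp; omega
    · simp [hx3, hy3]
    · have := hx4 i; have := hy4 i
      simp only [Pi.add_apply, Finset.sum_add_distrib, mul_add]; omega

/-- Small solutions of linear systems with small parameters. -/
theorem linear_shrink (I : Type) [Finite I] (n : ℕ) : ∃ c : ℕ, ∀ (x : I → ℕ) (T : ℕ),
    ∃ x' : I → ℕ, (∀ i, x' i ≤ x i) ∧ (∀ i, x' i ≤ c * T) ∧
      ∀ L L' : List I, L.length ≤ n → L'.length ≤ n → ∀ κ κ' : ℕ, κ ≤ T → κ' ≤ T →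
        val x L + κ = val x L' + κ' → val x' L + κ = val x' L' + κ' := by
  classical
  let J := {L : List I // L.length ≤ n}
  have : Finite J := (List.finite_length_le I n).to_subtype
  let K := (J × J) × Bool
  let _ : Fintype K := Fintype.ofFinite K
  let M : Set (J × J) → AddSubmonoid (I ⊕ K → ℕ) := fun S =>
    { carrier := {z | ∀ s ∈ S, val (fun i => z (Sum.inl i)) s.1.1 + z (Sum.inr (s, true)) =
          val (fun i => z (Sum.inl i)) s.2.1 + z (Sum.inr (s, false))}
      add_mem' := by
        intro a b ha hb s hs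
        have h1 := ha s hs
        have h2 := hb s hs
        simp only [Pi.add_apply, val_add]
        omega
      zero_mem' := by
        intro s hs
        simp only [val_zero, Pi.zero_apply] }
  have hfg : ∀ S, (M S).FG := by
    intro S
    refine AddSubmonoid.fg_of_subtractive ?_
    intro a ha b hab s hs
    have h1 := ha s hs
    have h2 := hab s hs
    simp only [val_add, Pi.add_apply] at h2
    omega
  choose H hH using hfg
  obtain ⟨c, hc⟩ : BddAbove (⋃ S, ⋃ i : I, (fun h : I ⊕ K → ℕ => h (Sum.inl i)) '' (H S)) :=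
    (Set.finite_iUnion (fun S => Set.finite_iUnion
      (fun i => (H S).finite_toSet.image _))).bddAbove
  refine ⟨c * Fintype.card K, fun x T => ?_⟩
  let S : Set (J × J) := {s | ∃ κ κ' : ℕ, κ ≤ T ∧ κ' ≤ T ∧ val x s.1.1 + κ = val x s.2.1 + κ'}
  have hy : ∀ s : J × J, ∃ κ κ' : ℕ, κ ≤ T ∧ κ' ≤ T ∧
      (s ∈ S → val x s.1.1 + κ = val x s.2.1 + κ') := by
    intro s
    by_cases hs : s ∈ S
    · obtain ⟨κ, κ', h1, h2, h3⟩ := hs
      exact ⟨κ, κ', h1, h2, fun _ => h3⟩
    · exact ⟨0, 0, Nat.zero_le _, Nat.zero_le _, fun h => absurd h hs⟩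
  choose y y' hy1 hy2 hy3 using hy
  let z : I ⊕ K → ℕ := Sum.elim x (fun k => if k.2 then y k.1 else y' k.1)
  have hz : z ∈ M S := fun s hs => by simpa [z] using hy3 s hs
  rw [← hH S] at hz
  obtain ⟨z', h1, h2, h3, h4⟩ := shrink_closure (H S) c (fun h hh i => hc
    (Set.mem_iUnion.2 ⟨S, Set.mem_iUnion.2 ⟨i, h, hh, rfl⟩⟩)) z hz
  rw [hH S] at h1
  refine ⟨fun i => z' (Sum.inl i), h2, fun i => (h4 i).trans ?_, ?_⟩
  · rw [mul_assoc]
    refine Nat.mul_le_mul_left _ ?_
    have : ∀ k ∈ (Finset.univ : Finset K), z (Sum.inr k) ≤ T := by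
      intro k _
      simp only [z, Sum.elim_inr]
      split_ifs
      exacts [hy1 _, hy2 _]
    simpa using Finset.sum_le_card_nsmul _ _ _ this
  · intro L L' hL hL' κ κ' hκ hκ' he
    have hs : ((⟨L, hL⟩, ⟨L', hL'⟩) : J × J) ∈ S := ⟨κ, κ', hκ, hκ', he⟩
    have e1 := h1 _ hs
    have e2 := hy3 _ hs
    rw [h3, h3] at e1
    simp only [z, Sum.elim_inr, if_true, Bool.false_eq_true, if_false] at e1 e2
    omega

section runs

variable [DecidableEq A] (o : A) (φ : ℕ → ℕ)

/-- Rewrites the lengths of all finished runs of the letter `o`. -/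
def ri : ℕ → List A → List A
  | _, [] => []
  | k, a :: x => if a = o then ri (k + 1) x else List.replicate (φ k) o ++ a :: ri 0 x

/-- The length of the last run of the letter `o`. -/
def tc : ℕ → List A → ℕ
  | k, [] => k
  | k, a :: x => if a = o then tc (k + 1) x else tc 0 x

lemma ri_append (k : ℕ) (x y : List A) :
    ri o φ k (x ++ y) = ri o φ k x ++ ri o φ (tc o k x) y := by
  induction x generalizing k with
  | nil => simp [ri, tc]
  | cons a x ih => by_cases h : a = o <;> simp [ri, tc, h, ih]

lemma tc_append (k : ℕ) (x y : List A) : tc o k (x ++ y) = tc o (tc o k x) y := by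
  induction x generalizing k with
  | nil => simp [tc]
  | cons a x ih => by_cases h : a = o <;> simp [tc, h, ih]

lemma ri_replicate (k a : ℕ) : ri o φ k (List.replicate a o) = [] := by
  induction a generalizing k with
  | zero => simp [ri]
  | succ a ih => simp [List.replicate_succ, ri, ih]

lemma tc_replicate (k a : ℕ) : tc o k (List.replicate a o) = k + a := by
  induction a generalizing k with
  | zero => simp [tc]
  | succ a ih => simp [List.replicate_succ, tc, ih]; omega

/-- Rewrites the lengths of all runs of the letter `o`. -/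
def rr (k : ℕ) (x : List A) : List A := ri o φ k x ++ List.replicate (φ (tc o k x)) o

lemma rr_append (k : ℕ) (x y : List A) :
    rr o φ k (x ++ y) = ri o φ k x ++ rr o φ (tc o k x) y := by
  simp [rr, ri_append, tc_append]

lemma ri_sublist (hφ : ∀ k, φ k ≤ k) (k b : ℕ) (y : List A) (hb : b ≤ tc o k y) :
    (ri o φ k y ++ List.replicate b o).Sublist (List.replicate k o ++ y) := by
  induction y generalizing k with
  | nil => simpa [ri, tc] using hb
  | cons a y ih =>
    by_cases h : a = o
    · subst h
      simp only [ri, tc, if_true] at hb ⊢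
      have := ih (k + 1) hb
      rwa [List.replicate_succ', List.append_assoc] at this
    · simp only [ri, tc, h, if_false] at hb ⊢
      have := ih 0 hb
      rw [List.append_assoc]
      refine List.Sublist.append (by simpa using hφ k) ?_
      simpa using this

omit [DecidableEq A] in
/-- All runs of `o` have length at most `R`. -/
def RB (R : ℕ) (x : List A) : Prop := ∀ t, List.replicate t o <:+: x → t ≤ R

omit [DecidableEq A] in
lemma RB_replicate {R k : ℕ} (h : k ≤ R) : RB o R (List.replicate k o) := by
  intro t ht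
  have := ht.length_le
  simp at this; omega

omit [DecidableEq A] in
lemma RB_split {R : ℕ} {x y : List A} {a : A} (ha : a ≠ o) (hx : RB o R x) (hy : RB o R y) :
    RB o R (x ++ a :: y) := by
  intro t ht
  rcases List.infix_append_iff.1 ht with h | h | ⟨l₁, l₂, h1, h2, h3⟩
  · exact hx t h
  · rcases List.infix_cons_iff.1 h with h | h
    · rcases t with _ | t
      · omega
      · rw [List.replicate_succ, List.cons_prefix_cons] at h
        exact absurd h.1.symm ha
    · exact hy t h
  · rcases l₂ with _ | ⟨b, l₂⟩
    · rw [List.append_nil] at h1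
      exact hx t (h1 ▸ h2.isInfix)
    · rw [List.cons_prefix_cons] at h3
      have : b ∈ List.replicate t o := by rw [h1]; simp
      exact absurd (h3.1 ▸ List.eq_of_mem_replicate this) ha

lemma RB_ri {R : ℕ} (hφ : ∀ k, φ k ≤ R) (k b : ℕ) (y : List A) (hb : b ≤ R) :
    RB o R (ri o φ k y ++ List.replicate b o) := by
  induction y generalizing k with
  | nil => simpa [ri] using RB_replicate o hb
  | cons a y ih =>
    by_cases h : a = o
    · simpa [ri, h] using ih (k + 1)
    · simp only [ri, h, if_false, List.append_assoc, List.cons_append]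
      exact RB_split o h (RB_replicate o (hφ k)) (ih 0)

omit [DecidableEq A] in
lemma run_shape (x : List A) : ∃ (a : ℕ) (r : Option (A × List A)),
    (r = none → x = List.replicate a o) ∧
    ∀ c y, r = some (c, y) → c ≠ o ∧ x = List.replicate a o ++ c :: y := by
  induction x with
  | nil => exact ⟨0, none, by simp, by simp⟩
  | cons b x ih =>
    by_cases h : b = o
    · obtain ⟨a, r, h1, h2⟩ := ih
      refine ⟨a + 1, r, fun hr => ?_, fun c y hr => ⟨(h2 c y hr).1, ?_⟩⟩
      · rw [h1 hr, h, List.replicate_succ]
      · rw [(h2 c y hr).2, h, List.replicate_succ]; rfl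
    · refine ⟨0, some (b, x), by simp, ?_⟩
      intro c y hr
      simp only [Option.some.injEq, Prod.mk.injEq] at hr
      obtain ⟨rfl, rfl⟩ := hr
      exact ⟨h, rfl⟩

end runs

/-- The number of variable occurrences. -/
def nvars (U : List (A ⊕ V)) : ℕ := U.countP Sum.isRight

/-- Long runs of one letter can be shortened. -/
theorem run_shrink (V : Type) [Finite V] (n : ℕ) : ∃ c : ℕ, ∀ (A : Type) (o : A) (E : Sys A V)
    (T : ℕ), (∀ e ∈ E, nvars e.1 ≤ n ∧ nvars e.2 ≤ n ∧ RB o T (subst (fun _ => []) e.1) ∧
      RB o T (subst (fun _ => []) e.2)) → ∀ τ : V → List A, Solves τ E →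
    ∃ τ' : V → List A, Solves τ' E ∧ ∀ x, (τ' x).Sublist (τ x) ∧ RB o (c * T) (τ' x) := by
  classical
  obtain ⟨c, hc⟩ := linear_shrink (V × Bool) (n + 1)
  refine ⟨(n + 1) * c + 1, fun A o E T hE τ hτ => ?_⟩
  choose a r hr1 hr2 using fun x => run_shape o (τ x)
  let u : V × Bool → ℕ := fun i =>
    if i.2 then a i.1 else ((r i.1).map (fun p => tc o 0 p.2)).getD 0
  obtain ⟨u', hu1, hu2, hu3⟩ := hc u T
  let φ : ℕ → ℕ := fun l =>
    if h : ∃ p : List (V × Bool) × ℕ, p.1.length ≤ n + 1 ∧ p.2 ≤ T ∧ l = val u p.1 + p.2 then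
      val u' h.choose.1 + h.choose.2 else 0
  have hφ1 : ∀ L : List (V × Bool), L.length ≤ n + 1 → ∀ κ ≤ T,
      φ (val u L + κ) = val u' L + κ := by
    intro L hL κ hκ
    have h : ∃ p : List (V × Bool) × ℕ, p.1.length ≤ n + 1 ∧ p.2 ≤ T ∧
        val u L + κ = val u p.1 + p.2 := ⟨(L, κ), hL, hκ, rfl⟩
    simp only [φ, dif_pos h]
    obtain ⟨h1, h2, h3⟩ := h.choose_spec
    exact (hu3 _ _ hL h1 _ _ hκ h2 h3).symm
  have hφ2 : ∀ l, φ l ≤ l := by
    intro l
    simp only [φ]
    split_ifs with h
    · obtain ⟨h1, h2, h3⟩ := h.choose_spec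
      have := val_mono hu1 h.choose.1
      omega
    · omega
  have hφ3 : ∀ l, φ l ≤ ((n + 1) * c + 1) * T := by
    intro l
    simp only [φ]
    split_ifs with h
    · obtain ⟨h1, h2, h3⟩ := h.choose_spec
      have h4 := val_le hu2 h.choose.1
      have h5 : h.choose.1.length * (c * T) ≤ (n + 1) * (c * T) := Nat.mul_le_mul_right _ h1
      nlinarith
    · omega
  have hu4 : ∀ i, u' i ≤ ((n + 1) * c + 1) * T := by
    intro i
    have := hu2 i
    nlinarith [Nat.zero_le (n * c * T)]
  let τ' : V → List A := fun x => List.replicate (u' (x, true)) o ++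
    (match r x with
      | none => []
      | some (c, y) => c :: (ri o φ 0 y ++ List.replicate (u' (x, false)) o))
  have key : ∀ (U : List (A ⊕ V)) (L : List (V × Bool)) (κ : ℕ), L.length + nvars U ≤ n + 1 →
      RB o T (List.replicate κ o ++ subst (fun _ => []) U) →
      List.replicate (val u' L + κ) o ++ subst τ' U = rr o φ (val u L + κ) (subst τ U) := by
    intro U
    induction U with
    | nil =>
      intro L κ hL hR
      have hκ : κ ≤ T := hR κ (by simp)
      simp [rr, ri, tc, hφ1 L (by simpa [nvars] using hL) κ hκ]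
    | cons t U ih =>
      intro L κ hL hR
      have hκ : κ ≤ T := hR κ (List.prefix_append _ _).isInfix
      have hR0 : RB o T (List.replicate 0 o ++ subst (fun _ => []) U) := by
        intro s hs
        refine hR s (hs.trans ?_)
        cases t with
        | inl b => exact ⟨List.replicate κ o ++ [b], [], by simp⟩
        | inr x => exact ⟨List.replicate κ o, [], by simp⟩
      cases t with
      | inl b =>
        have hL' : L.length + nvars U ≤ n + 1 := by simpa [nvars] using hL
        by_cases hb : b = o
        · subst hb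
          have := ih L (κ + 1) hL'
            (by simpa [List.replicate_succ'] using hR)
          rw [← add_assoc, List.replicate_succ'] at this
          simpa [rr, ri, tc, add_assoc] using this
        · have := ih [] 0 (by simp; omega) hR0
          simp only [val_nil, add_zero, List.replicate_zero, List.nil_append] at this
          simp only [subst_inl, this, rr, ri, tc, hb, if_false, hφ1 L (by omega) κ hκ]
          simp
      | inr x =>
        have hL' : L.length + nvars U + 1 ≤ n + 1 := by
          simpa [nvars, add_assoc] using hL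
        have hux : u (x, true) = a x := by simp [u]
        rcases hrx : r x with _ | ⟨c, y⟩
        · have := ih ((x, true) :: L) κ (by simp; omega) (by simpa using hR)
          simp only [subst_inr, hr1 x hrx, rr_append, ri_replicate, tc_replicate, τ', hrx,
            List.nil_append, List.append_nil]
          rw [← List.append_assoc, ← List.replicate_add]
          simp only [val_cons, hux] at this
          convert this using 2
          · congr 1; omega
          · omega
        · obtain ⟨hco, hx⟩ := hr2 x c y hrx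
          have hux' : u (x, false) = tc o 0 y := by simp [u, hrx]
          have h1 := ih [(x, false)] 0 (by simp; omega) hR0
          have h2 := hφ1 ((x, true) :: L) (by simp; omega) κ hκ
          simp only [val_cons, val_nil, add_zero, hux, hux'] at h1 h2
          simp only [subst_inr, hx, List.append_assoc, rr_append, ri_replicate, tc_replicate,
            τ', hrx, List.nil_append, List.cons_append]
          have h3 : rr o φ (val u L + κ + a x) (c :: (y ++ subst τ U)) =
              List.replicate (φ (val u L + κ + a x)) o ++ c :: rr o φ 0 (y ++ subst τ U) := by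
            simp [rr, ri, tc, hco]
          rw [h3, rr_append, ← h1, ← List.append_assoc, ← List.replicate_add]
          have h4 : val u L + κ + a x = a x + val u L + κ := by omega
          rw [h4, h2]
          congr 2
          omega
  refine ⟨τ', fun e he => ?_, fun x => ⟨?_, ?_⟩⟩
  · obtain ⟨h1, h2, h3, h4⟩ := hE e he
    have k1 := key e.1 [] 0 (by simp; omega) (by simpa using h3)
    have k2 := key e.2 [] 0 (by simp; omega) (by simpa using h4)
    simp only [val_nil, add_zero, List.replicate_zero, List.nil_append] at k1 k2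
    rw [k1, k2, hτ e he]
  · have hux : u' (x, true) ≤ a x := by simpa [u] using hu1 (x, true)
    rcases hrx : r x with _ | ⟨c, y⟩
    · simp only [τ', hrx, List.append_nil, hr1 x hrx]
      simpa using hux
    · obtain ⟨hco, hx⟩ := hr2 x c y hrx
      have hux' : u' (x, false) ≤ tc o 0 y := by simpa [u, hrx] using hu1 (x, false)
      simp only [τ', hrx, hx]
      refine List.Sublist.append (by simpa using hux) (List.Sublist.cons_cons _ ?_)
      simpa using ri_sublist o φ hφ2 0 _ y hux'
  · rcases hrx : r x with _ | ⟨c, y⟩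
    · simp only [τ', hrx, List.append_nil]
      exact RB_replicate o (hu4 _)
    · obtain ⟨hco, hx⟩ := hr2 x c y hrx
      simp only [τ', hrx]
      exact RB_split o hco (RB_replicate o (hu4 _)) (RB_ri o φ hφ3 0 _ y (hu4 _))

end Pool.Agent.Lib.MP_ab3cdc_lc
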