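import Pool.Agent.Lib.MP_ab3cdc_lc.Core

namespace Pool.Agent.Lib.MP_ab3cdc_lc

variable {A V W X : Type}

/-- Possibly empty unions of possibly empty conjunctive queries. -/
def UCQ (w : X) (L : Set (List A)) : Prop :=
  ∃ Φ : List (List (X × List (A ⊕ X))), L = {u | ∃ φ ∈ Φ, u ∈ cqLang w φ}

lemma UCQ.empty (w : X) : UCQ w (∅ : Set (List A)) := ⟨[], by simp⟩

lemma UCQ.cq (w : X) (φ : List (X × List (A ⊕ X))) : UCQ w (cqLang w φ) := ⟨[φ], by simp⟩

lemma UCQ.union {w : X} {L L' : Set (List A)} (h : UCQ w L) (h' : UCQ w L') : UCQ w (L ∪ L') := by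
  obtain ⟨Φ, rfl⟩ := h
  obtain ⟨Φ', rfl⟩ := h'
  refine ⟨Φ ++ Φ', ?_⟩
  ext u
  simp only [Set.mem_union, Set.mem_ofPred_eq, List.mem_append, or_and_right, exists_or]

lemma UCQ.biUnion {w : X} {ι : Type} {s : Set ι} (hs : s.Finite) {L : ι → Set (List A)}
    (h : ∀ i ∈ s, UCQ w (L i)) : UCQ w (⋃ i ∈ s, L i) := by
  induction s, hs using Set.Finite.induction_on with
  | empty => simpa using UCQ.empty w
  | insert _ _ ih =>
    rw [Set.biUnion_insert]
    exact (h _ (Set.mem_insert _ _)).union (ih (fun i hi => h i (Set.mem_insert_of_mem _ hi)))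

lemma UCQ.mem_class [Nonempty A] {w : X} {L : Set (List A)} (h : UCQ w L) :
    L ∈ fcUcqClass A w := by
  obtain ⟨Φ, rfl⟩ := h
  obtain ⟨a⟩ := ‹Nonempty A›
  refine ⟨[(w, [Sum.inl a, Sum.inr w])] :: Φ.map (fun φ => (w, [Sum.inr w]) :: φ), by simp,
    ?_, ?_⟩
  · intro φ hφ
    rcases List.mem_cons.1 hφ with rfl | hφ
    · simp
    · obtain ⟨φ', -, rfl⟩ := List.mem_map.1 hφ
      simp
  · ext u
    simp only [Set.mem_ofPred_eq, List.mem_cons, List.mem_map, exists_eq_or_imp]
    constructor
    · rintro ⟨φ, h1, σ, h2, h3, h4⟩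
      exact Or.inr ⟨_, ⟨φ, h1, rfl⟩, σ, h2, by simpa using h3, h4⟩
    · rintro (⟨σ, -, h3, -⟩ | ⟨_, ⟨φ, h1, rfl⟩, σ, h2, h3, h4⟩)
      · have := congrArg List.length (h3 _ List.mem_cons_self)
        simp at this
      · exact ⟨φ, h1, σ, h2, fun e he => h3 e (List.mem_cons_of_mem _ he), h4⟩

/-- Atoms and general equations, with the safe semantics. -/
def safeLang (w : X) (D : List (X × List (A ⊕ X))) (R : Sys A X) : Set (List A) :=
  {u | ∃ σ : X → List A, (∀ x, σ x <:+: σ w) ∧ (∀ e ∈ D, σ e.1 = subst σ e.2) ∧ Solves σ R ∧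
    σ w = u}

lemma solves_cons {σ : V → List A} {U U' : List (A ⊕ V)} {R : Sys A V} :
    Solves σ ((U, U') :: R) ↔ subst σ U = subst σ U' ∧ Solves σ R := by
  simp [Solves]

lemma safeLang_swap (w : X) (D : List (X × List (A ⊕ X))) (U U' : List (A ⊕ X)) (R : Sys A X) :
    safeLang w D ((U, U') :: R) = safeLang w D ((U', U) :: R) := by
  simp only [safeLang, solves_cons, eq_comm (a := subst _ U)]

lemma exists_fresh [Infinite X] (w : X) (D : List (X × List (A ⊕ X))) (R : Sys A X) :
    ∃ r : X, r ≠ w ∧ (∀ e ∈ D, r ≠ e.1 ∧ Sum.inr r ∉ e.2) ∧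
      ∀ e ∈ R, Sum.inr r ∉ e.1 ∧ Sum.inr r ∉ e.2 := by
  classical
  obtain ⟨r, hr⟩ := Infinite.exists_notMem_finset (w :: (D.flatMap (fun e =>
    e.1 :: e.2.filterMap Sum.getRight?) ++
    R.flatMap (fun e => (e.1 ++ e.2).filterMap Sum.getRight?))).toFinset
  simp only [List.mem_toFinset, List.mem_cons, List.mem_append, List.mem_flatMap,
    List.mem_filterMap, Sum.getRight?_eq_some_iff, exists_eq_right, not_or, not_exists,
    not_and] at hr
  exact ⟨r, hr.1, hr.2.1, hr.2.2⟩

/-- Introducing a fresh variable for a remainder. -/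
lemma safe_fresh {w r t : X} {D : List (X × List (A ⊕ X))} {R : Sys A X} {s : A ⊕ X}
    {U U' : List (A ⊕ X)} (h1 : r ≠ w) (h2 : ∀ e ∈ D, r ≠ e.1 ∧ Sum.inr r ∉ e.2)
    (h3 : ∀ e ∈ (s :: U, Sum.inr t :: U') :: R, Sum.inr r ∉ e.1 ∧ Sum.inr r ∉ e.2)
    {σ : X → List A} (a1 : ∀ x, σ x <:+: σ w) (a2 : ∀ e ∈ D, σ e.1 = subst σ e.2)
    (a3 : Solves σ ((s :: U, Sum.inr t :: U') :: R)) (a4 : subst σ [s] <+: σ t) :
    σ w ∈ safeLang w ((t, [s, Sum.inr r]) :: D) ((U, Sum.inr r :: U') :: R) := by
  classical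
  obtain ⟨v, hv⟩ := a4
  have b0 := h3 _ List.mem_cons_self
  simp only [List.mem_cons, not_or, Sum.inr.injEq] at b0
  have hc : ∀ U : List (A ⊕ X), Sum.inr r ∉ U → subst (Function.update σ r v) U = subst σ U :=
    fun U hU => subst_congr (fun x hx => Function.update_of_ne (by rintro rfl; exact hU hx) _ _)
  have hw : Function.update σ r v w = σ w := Function.update_of_ne h1.symm _ _
  have ht : Function.update σ r v t = σ t := Function.update_of_ne (Ne.symm b0.2.1) _ _
  rw [solves_cons] at a3
  refine ⟨Function.update σ r v, fun x => ?_, fun e he => ?_, ?_, hw⟩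
  · rw [hw]
    by_cases hx : x = r
    · subst hx
      rw [Function.update_self]
      exact (List.IsSuffix.isInfix ⟨_, hv⟩).trans (a1 t)
    · rw [Function.update_of_ne hx]; exact a1 x
  · rcases List.mem_cons.1 he with rfl | he
    · have : subst (Function.update σ r v) [s, Sum.inr r] =
          subst (Function.update σ r v) [s] ++ v := by
        rw [show [s, Sum.inr r] = [s] ++ [Sum.inr r] from rfl, subst_append]; simp
      simp only [this, ht, hc [s] (by simpa using b0.1.1), hv]
    · rw [Function.update_of_ne (h2 e he).1.symm, hc _ (h2 e he).2]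
      exact a2 e he
  · rw [solves_cons]
    refine ⟨?_, fun e he => ?_⟩
    · rw [subst_inr, Function.update_self, hc _ b0.1.2, hc _ b0.2.2]
      have := a3.1
      rw [subst_inr, ← hv, show s :: U = [s] ++ U from rfl, subst_append, List.append_assoc]
        at this
      exact List.append_cancel_left this
    · have := h3 e (List.mem_cons_of_mem _ he)
      rw [hc _ this.1, hc _ this.2]
      exact a3.2 e he

lemma safe_fresh_back {w r t : X} {D : List (X × List (A ⊕ X))} {R : Sys A X} {s : A ⊕ X}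
    {U U' : List (A ⊕ X)} :
    safeLang w ((t, [s, Sum.inr r]) :: D) ((U, Sum.inr r :: U') :: R) ⊆
      safeLang w D ((s :: U, Sum.inr t :: U') :: R) := by
  rintro _ ⟨σ, a1, a2, a3, rfl⟩
  rw [solves_cons] at a3
  refine ⟨σ, a1, fun e he => a2 e (List.mem_cons_of_mem _ he), solves_cons.2 ⟨?_, a3.2⟩, rfl⟩
  have := a2 _ List.mem_cons_self
  simp only at this
  rw [subst_inr, this, show s :: U = [s] ++ U from rfl, subst_append, a3.1,
    show [s, Sum.inr r] = [s] ++ [Sum.inr r] from rfl, subst_append]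
  simp

lemma safe_eps {w t : X} {D : List (X × List (A ⊕ X))} {R : Sys A X} {U U' : List (A ⊕ X)} :
    safeLang w ((t, []) :: D) ((U, U') :: R) ⊆ safeLang w D ((U, Sum.inr t :: U') :: R) := by
  rintro _ ⟨σ, a1, a2, a3, rfl⟩
  rw [solves_cons] at a3
  refine ⟨σ, a1, fun e he => a2 e (List.mem_cons_of_mem _ he), solves_cons.2 ⟨?_, a3.2⟩, rfl⟩
  have := a2 _ List.mem_cons_self
  simp only [subst_nil] at this
  simp [this, a3.1]

lemma safe_eps' {w t : X} {D : List (X × List (A ⊕ X))} {R : Sys A X} {U U' : List (A ⊕ X)}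
    {σ : X → List A} (a1 : ∀ x, σ x <:+: σ w) (a2 : ∀ e ∈ D, σ e.1 = subst σ e.2)
    (a3 : Solves σ ((U, Sum.inr t :: U') :: R)) (a4 : σ t = []) :
    σ w ∈ safeLang w ((t, []) :: D) ((U, U') :: R) := by
  rw [solves_cons] at a3
  refine ⟨σ, a1, fun e he => ?_, solves_cons.2 ⟨by simpa [a4] using a3.1, a3.2⟩, rfl⟩
  rcases List.mem_cons.1 he with rfl | he
  · simpa using a4
  · exact a2 e he

lemma safe_one [Infinite X] (w : X) (R : Sys A X) (hR : ∀ D, UCQ w (safeLang w D R)) (m : ℕ) :
    ∀ U U' : List (A ⊕ X), U.length + U'.length = m → ∀ D, UCQ w (safeLang w D ((U, U') :: R)) := by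
  induction m with
  | zero =>
    intro U U' h D
    obtain rfl : U = [] := List.length_eq_zero_iff.1 (by omega)
    obtain rfl : U' = [] := List.length_eq_zero_iff.1 (by omega)
    simpa only [safeLang, solves_cons, true_and] using hR D
  | succ m ih =>
    have hnil : ∀ U' : List (A ⊕ X), U'.length = m + 1 → ∀ D,
        UCQ w (safeLang w D (([], U') :: R)) := by
      intro U' h D
      rcases U' with _ | ⟨a | t, U'⟩
      · simp at h
      · convert UCQ.empty w
        simp [safeLang, solves_cons]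
      · convert ih [] U' (by simpa using h) ((t, []) :: D) using 1
        refine Set.Subset.antisymm ?_ safe_eps
        rintro _ ⟨σ, a1, a2, a3, rfl⟩
        refine safe_eps' a1 a2 a3 ?_
        have := (solves_cons.1 a3).1
        simp only [subst_nil, subst_inr, List.nil_eq, List.append_eq_nil_iff] at this
        exact this.1
    have hlet : ∀ (a : A) (t : X) (U U' : List (A ⊕ X)), U.length + U'.length + 1 = m → ∀ D,
        UCQ w (safeLang w D ((Sum.inl a :: U, Sum.inr t :: U') :: R)) := by
      intro a t U U' h D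
      obtain ⟨r, h1, h2, h3⟩ := exists_fresh w D ((Sum.inl a :: U, Sum.inr t :: U') :: R)
      convert (ih (Sum.inl a :: U) U' (by simp; omega) ((t, []) :: D)).union
        (ih U (Sum.inr r :: U') (by simp; omega) ((t, [Sum.inl a, Sum.inr r]) :: D)) using 1
      refine Set.Subset.antisymm ?_ (Set.union_subset safe_eps safe_fresh_back)
      rintro _ ⟨σ, a1, a2, a3, rfl⟩
      rcases ht : σ t with _ | ⟨b, v⟩
      · exact Or.inl (safe_eps' a1 a2 a3 ht)
      · refine Or.inr (safe_fresh h1 h2 h3 a1 a2 a3 ?_)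
        have := (solves_cons.1 a3).1
        simp only [subst_inl, subst_inr, ht, List.cons_append, List.cons.injEq] at this
        simp [ht, this.1]
    intro U U' h D
    rcases U with _ | ⟨s, U⟩
    · exact hnil U' (by simpa using h) D
    rcases U' with _ | ⟨s', U'⟩
    · rw [safeLang_swap]; exact hnil _ (by simpa using h) D
    simp only [List.length_cons] at h
    rcases s with a | s <;> rcases s' with a' | s'
    · by_cases ha : a = a'
      · subst ha
        rcases m with _ | m
        · omega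
        obtain ⟨r, h1, h2, h3⟩ := exists_fresh w D ((U, U') :: R)
        convert ih U (Sum.inr r :: U') (by simp; omega) ((r, []) :: D) using 1
        ext u
        constructor
        · rintro ⟨σ, a1, a2, a3, rfl⟩
          classical
          rw [solves_cons] at a3
          have hc : ∀ U : List (A ⊕ X), Sum.inr r ∉ U →
              subst (Function.update σ r []) U = subst σ U := fun U hU =>
            subst_congr (fun x hx => Function.update_of_ne (by rintro rfl; exact hU hx) _ _)
          have hw : Function.update σ r [] w = σ w := Function.update_of_ne h1.symm _ _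
          refine ⟨Function.update σ r [], fun x => ?_, fun e he => ?_, ?_, hw⟩
          · rw [hw]
            by_cases hx : x = r
            · subst hx; simp
            · rw [Function.update_of_ne hx]; exact a1 x
          · rcases List.mem_cons.1 he with rfl | he
            · simp
            · rw [Function.update_of_ne (h2 e he).1.symm, hc _ (h2 e he).2]
              exact a2 e he
          · rw [solves_cons]
            have b0 := h3 _ List.mem_cons_self
            refine ⟨?_, fun e he => ?_⟩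
            · rw [subst_inr, Function.update_self, hc _ b0.1, hc _ b0.2]
              simpa using a3.1
            · have := h3 e (List.mem_cons_of_mem _ he)
              rw [hc _ this.1, hc _ this.2]
              exact a3.2 e he
        · rintro ⟨σ, a1, a2, a3, rfl⟩
          rw [solves_cons] at a3
          have := a2 _ List.mem_cons_self
          simp only [subst_nil] at this
          exact ⟨σ, a1, fun e he => a2 e (List.mem_cons_of_mem _ he),
            solves_cons.2 ⟨by simpa [this] using a3.1, a3.2⟩, rfl⟩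
      · convert UCQ.empty w
        simp [safeLang, solves_cons, ha]
    · exact hlet a s' U U' (by omega) D
    · rw [safeLang_swap]; exact hlet a' s U' U (by omega) D
    · obtain ⟨r, h1, h2, h3⟩ := exists_fresh w D ((Sum.inr s :: U, Sum.inr s' :: U') :: R)
      have h3' : ∀ e ∈ (Sum.inr s' :: U', Sum.inr s :: U) :: R,
          Sum.inr r ∉ e.1 ∧ Sum.inr r ∉ e.2 := by
        intro e he
        rcases List.mem_cons.1 he with rfl | he
        · exact (h3 _ List.mem_cons_self).symm
        · exact h3 e (List.mem_cons_of_mem _ he)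
      convert (ih U (Sum.inr r :: U') (by simp; omega) ((s', [Sum.inr s, Sum.inr r]) :: D)).union
        (ih U' (Sum.inr r :: U) (by simp; omega) ((s, [Sum.inr s', Sum.inr r]) :: D)) using 1
      refine Set.Subset.antisymm ?_ (Set.union_subset safe_fresh_back
        (by rw [safeLang_swap w D]; exact safe_fresh_back))
      rintro _ ⟨σ, a1, a2, a3, rfl⟩
      have := (solves_cons.1 a3).1
      simp only [subst_inr] at this
      rcases List.prefix_or_prefix_of_prefix (List.prefix_append (σ s) (subst σ U))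
        (this ▸ List.prefix_append (σ s') (subst σ U')) with h4 | h4
      · exact Or.inl (safe_fresh h1 h2 h3 a1 a2 a3 (by simpa using h4))
      · refine Or.inr (safe_fresh h1 h2 h3' a1 a2 ?_ (by simpa using h4))
        rw [solves_cons] at a3 ⊢
        exact ⟨a3.1.symm, a3.2⟩

lemma safe_ucq [Infinite X] (w : X) (R : Sys A X) : ∀ D, UCQ w (safeLang w D R) := by
  induction R with
  | nil =>
    intro D
    have := UCQ.cq w D
    simp only [safeLang, Solves, List.not_mem_nil, false_imp_iff, implies_true, true_and]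
    exact this
  | cons e R ih => exact safe_one w R ih _ e.1 e.2 rfl

/-- The language of a system of word equations. -/
def sysLang (w : V) (E : Sys A V) : Set (List A) := {u | ∃ σ, Solves σ E ∧ σ w = u}

lemma subst_bind (ρ : X → List A) (s : V → List (A ⊕ X)) (U : List (A ⊕ V)) :
    subst ρ (U.flatMap (Sum.elim (fun a => [Sum.inl a]) s)) =
      subst (fun x => subst ρ (s x)) U := by
  induction U with
  | nil => rfl
  | cons t U ih => cases t <;> simp [ih]

lemma subst_rename (ρ : W → List A) (r : V → W) (U : List (A ⊕ V)) :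
    subst ρ (U.map (Sum.map id r)) = subst (fun x => ρ (r x)) U := by
  induction U with
  | nil => rfl
  | cons t U ih => cases t <;> simp [ih]

/-- Renaming the variables of a system. -/
def ren (r : V → W) (E : Sys A V) : Sys A W :=
  E.map (fun e => (e.1.map (Sum.map id r), e.2.map (Sum.map id r)))

lemma solves_ren (ρ : W → List A) (r : V → W) (E : Sys A V) :
    Solves ρ (ren r E) ↔ Solves (fun x => ρ (r x)) E := by
  simp only [Solves, ren, List.forall_mem_map, subst_rename]

lemma sys_ucq_fin [Finite A] [Finite V] [Infinite X] (w : X) (v : V) (E : Sys A V) :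
    UCQ w (sysLang v E) := by
  classical
  obtain ⟨n, hn⟩ := exists_sizeLe E
  obtain ⟨C, hC⟩ := core V n
  have : Infinite {x : X // x ≠ w} := Set.infinite_coe_iff.2 (Set.finite_singleton w).infinite_compl
  obtain ⟨y₀⟩ : Nonempty (V × Fin C ↪ {x : X // x ≠ w}) := by
    obtain ⟨m, ⟨e⟩⟩ := Finite.exists_equiv_fin (V × Fin C)
    exact ⟨e.toEmbedding.trans (Fin.valEmbedding.trans (Infinite.natEmbedding _))⟩
  let y : V × Fin C → X := fun i => (y₀ i).1
  have hy : Function.Injective y := Subtype.val_injective.comp y₀.injective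
  have hyw : ∀ i, y i ≠ w := fun i => (y₀ i).2
  let sh : (V → List (A ⊕ (V × Fin C))) → V → List (A ⊕ X) := fun s x => (s x).map (Sum.map id y)
  let bd : (V → List (A ⊕ X)) → List (A ⊕ V) → List (A ⊕ X) := fun s U =>
    U.flatMap (Sum.elim (fun a => [Sum.inl a]) s)
  let L : (V → List (A ⊕ (V × Fin C))) → Set (List A) := fun s =>
    safeLang w [(w, sh s v)] (E.map (fun e => (bd (sh s) e.1, bd (sh s) e.2)))
  have hfin : {s : V → List (A ⊕ (V × Fin C)) | ∀ x, (s x).length ≤ C}.Finite :=
    Set.Finite.pi' (fun _ => List.finite_length_le _ C)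
  convert UCQ.biUnion hfin (L := L) (fun s _ => safe_ucq w _ _) using 1
  ext u
  simp only [Set.mem_iUnion, Set.mem_ofPred_eq, exists_prop]
  constructor
  · rintro ⟨σ₀, h₀, rfl⟩
    let F : Set (List A) := {z | z <:+: σ₀ v ∨ z.length ≤ 1}
    obtain ⟨σ, h1, h2, h3⟩ := hC A E hn F
      (fun a b hb ha => ha.imp hb.trans (fun h => hb.length_le.trans h)) (Or.inr (by simp))
      (fun a => Or.inr (by simp)) σ₀ h₀
    choose l hl1 hl2 hl3 using h3
    let f : V × Fin C → List A := fun i =>
      if (l i.1)[i.2.1]?.getD [] <:+: σ₀ v then (l i.1)[i.2.1]?.getD [] else []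
    let ρ : X → List A := fun x => if x = w then σ₀ v else Function.extend y f (fun _ => []) x
    have hρw : ρ w = σ₀ v := by simp [ρ]
    have hρy : ∀ i, ρ (y i) = f i := fun i => by simp [ρ, hyw i, hy.extend_apply]
    have hs : ∀ x, ∃ s : List (A ⊕ (V × Fin C)), s.length ≤ C ∧ subst f s = σ x := by
      intro x
      have key : ∀ (l' : List (List A)) (j : ℕ), (l x).drop j = l' →
          ∃ s : List (A ⊕ (V × Fin C)), s.length ≤ l'.length ∧ subst f s = l'.flatten := by
        intro l'
        induction l' with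
        | nil => intro j _; exact ⟨[], le_rfl, rfl⟩
        | cons z l' ih =>
          intro j hj
          have hj1 : j < (l x).length := by
            have := congrArg List.length hj
            simp at this; omega
          have hj2 : (l x)[j]? = some z := by
            have := congrArg (fun t => t[0]?) hj
            simpa using this
          obtain ⟨s, s1, s2⟩ := ih (j + 1) (by rw [← List.drop_drop, hj]; rfl)
          rcases hl2 x z (List.mem_of_getElem? hj2) with hz | hz
          · refine ⟨Sum.inr (x, ⟨j, hj1.trans_le (hl1 x)⟩) :: s, by simpa using s1, ?_⟩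
            simp [s2, f, hj2, hz]
          · refine ⟨z.map Sum.inl ++ s, by simp; omega, by simp [s2]⟩
      obtain ⟨s, s1, s2⟩ := key (l x) 0 rfl
      exact ⟨s, s1.trans (hl1 x), s2.trans (hl3 x)⟩
    choose s hs1 hs2 using hs
    have hsub : ∀ x, subst ρ (sh s x) = σ x := by
      intro x
      simp only [sh, subst_rename, hρy]
      exact hs2 x
    refine ⟨s, hs1, ρ, fun x => ?_, ?_, ?_, hρw⟩
    · rw [hρw]
      by_cases hx : x = w
      · rw [hx, hρw]
      · by_cases hx' : ∃ i, y i = x
        · obtain ⟨i, rfl⟩ := hx'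
          rw [hρy]
          simp only [f]
          split_ifs with h
          · exact h
          · exact List.nil_infix
        · simp [ρ, hx, Function.extend_apply' _ _ _ hx']
    · intro e he
      rw [List.mem_singleton.1 he, hρw, hsub, h2 v (Or.inl List.infix_rfl)]
    · intro e he
      obtain ⟨e₀, he₀, rfl⟩ := List.mem_map.1 he
      simp only [bd, subst_bind, hsub]
      exact h1 e₀ he₀
  · rintro ⟨s, -, ρ, -, h2, h3, rfl⟩
    refine ⟨fun x => subst ρ (sh s x), fun e he => ?_, (h2 _ List.mem_cons_self).symm⟩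
    simpa only [bd, subst_bind] using h3 _ (List.mem_map.2 ⟨e, he, rfl⟩)

lemma sys_ucq [Finite A] [Infinite X] (w : X) (v : V) (E : Sys A V) : UCQ w (sysLang v E) := by
  classical
  let S : Finset V := (v :: E.flatMap (fun e => (e.1 ++ e.2).filterMap Sum.getRight?)).toFinset
  let r : V → Option S := fun x => if h : x ∈ S then some ⟨x, h⟩ else none
  convert sys_ucq_fin w (r v) (ren r E) using 1
  ext u
  constructor
  · rintro ⟨σ, h1, rfl⟩
    let ρ : Option S → List A := fun o => o.elim [] (fun x => σ x.1)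
    have hρ : ∀ x ∈ S, ρ (r x) = σ x := fun x hx => by simp [ρ, r, hx]
    refine ⟨ρ, (solves_ren _ _ _).2 (fun e he => ?_), hρ v (by simp [S])⟩
    have hm : ∀ x, Sum.inr x ∈ e.1 ∨ Sum.inr x ∈ e.2 → x ∈ S := by
      intro x hx
      simp only [S, List.mem_toFinset, List.mem_cons, List.mem_flatMap, List.mem_filterMap,
        List.mem_append, Sum.getRight?_eq_some_iff, exists_eq_right]
      exact Or.inr ⟨e, he, hx⟩
    rw [subst_congr (τ := σ) (fun x hx => hρ x (hm x (Or.inl hx))),
      subst_congr (τ := σ) (fun x hx => hρ x (hm x (Or.inr hx)))]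
    exact h1 e he
  · rintro ⟨ρ, h1, rfl⟩
    exact ⟨_, (solves_ren _ _ _).1 h1, rfl⟩

/-- Projections of solution sets of systems. -/
def PP (R : (X → List A) → Prop) : Prop :=
  ∃ (V : Type) (E : Sys A (X ⊕ V)), ∀ σ, R σ ↔ ∃ τ : V → List A, Solves (Sum.elim σ τ) E

lemma PP.and {R R' : (X → List A) → Prop} (h : PP R) (h' : PP R') : PP (fun σ => R σ ∧ R' σ) := by
  obtain ⟨V, E, h⟩ := h
  obtain ⟨V', E', h'⟩ := h'
  refine ⟨V ⊕ V', ren (Sum.map id Sum.inl) E ++ ren (Sum.map id Sum.inr) E', fun σ => ?_⟩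
  have key : ∀ τ : V ⊕ V' → List A, Solves (Sum.elim σ τ)
      (ren (Sum.map id Sum.inl) E ++ ren (Sum.map id Sum.inr) E') ↔
      Solves (Sum.elim σ (fun x => τ (Sum.inl x))) E ∧
        Solves (Sum.elim σ (fun x => τ (Sum.inr x))) E' := by
    intro τ
    have e1 : (fun x => Sum.elim σ τ (Sum.map id Sum.inl x)) =
        Sum.elim σ (fun x => τ (Sum.inl x)) := by funext x; cases x <;> rfl
    have e2 : (fun x => Sum.elim σ τ (Sum.map id Sum.inr x)) =
        Sum.elim σ (fun x => τ (Sum.inr x)) := by funext x; cases x <;> rfl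
    rw [← e1, ← e2, ← solves_ren (Sum.elim σ τ) (Sum.map id Sum.inl),
      ← solves_ren (Sum.elim σ τ) (Sum.map id Sum.inr)]
    simp only [Solves, List.mem_append, or_imp, forall_and]
  simp only [key, h, h']
  constructor
  · rintro ⟨⟨τ, h1⟩, τ', h2⟩
    exact ⟨Sum.elim τ τ', h1, h2⟩
  · rintro ⟨τ, h1, h2⟩
    exact ⟨⟨_, h1⟩, _, h2⟩

lemma PP.ex {R : (X → List A) → Prop} (h : PP R) (x : X) :
    PP (fun σ => ∃ τ : X → List A, (∀ y, y ≠ x → τ y = σ y) ∧ R τ) := by
  classical
  obtain ⟨V, E, h⟩ := h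
  let r : X ⊕ V → X ⊕ Option V :=
    Sum.elim (fun y => if y = x then Sum.inr none else Sum.inl y) (fun v => Sum.inr (some v))
  refine ⟨Option V, ren r E, fun σ => ?_⟩
  simp only [solves_ren, h]
  constructor
  · rintro ⟨τ, h1, ρ, h2⟩
    refine ⟨fun o => o.elim (τ x) ρ, ?_⟩
    convert h2 using 1
    funext z
    rcases z with y | v
    · by_cases hy : y = x
      · simp [r, hy]
      · simp [r, hy, h1 y hy]
    · simp [r]
  · rintro ⟨ρ, h1⟩
    refine ⟨fun y => if y = x then ρ none else σ y, fun y hy => if_neg hy,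
      fun v => ρ (some v), ?_⟩
    convert h1 using 1
    funext z
    rcases z with y | v
    · by_cases hy : y = x
      · simp [r, hy]
      · simp [r, hy]
    · simp [r]

lemma epc_normal (φ : EPC A X) : ∃ (ι : Type) (_ : Finite ι) (R : ι → (X → List A) → Prop),
    (∀ i, PP (R i)) ∧ ∀ σ, φ.Sat σ ↔ ∃ i, R i σ := by
  induction φ with
  | eqn α β =>
    refine ⟨Unit, inferInstance, fun _ σ => subst σ α = subst σ β, fun _ => ?_,
      fun σ => by simp [EPC.Sat]⟩
    refine ⟨Empty, ren Sum.inl [(α, β)], fun σ => ?_⟩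
    simp only [solves_ren, Sum.elim_inl, solves_cons]
    exact ⟨fun h => ⟨Empty.elim, h, by simp [Solves]⟩, fun ⟨_, h, _⟩ => h⟩
  | conj φ ψ ih1 ih2 =>
    obtain ⟨ι, _, R, h1, h2⟩ := ih1
    obtain ⟨ι', _, R', h1', h2'⟩ := ih2
    refine ⟨ι × ι', inferInstance, fun i σ => R i.1 σ ∧ R' i.2 σ,
      fun i => (h1 i.1).and (h1' i.2), fun σ => ?_⟩
    simp only [EPC.Sat, h2, h2', Prod.exists, exists_and_left, exists_and_right]
  | disj φ ψ ih1 ih2 =>
    obtain ⟨ι, _, R, h1, h2⟩ := ih1
    obtain ⟨ι', _, R', h1', h2'⟩ := ih2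
    refine ⟨ι ⊕ ι', inferInstance, Sum.elim R R', fun i => ?_, fun σ => ?_⟩
    · cases i with
      | inl i => exact h1 i
      | inr i => exact h1' i
    · simp only [EPC.Sat, h2, h2', Sum.exists, Sum.elim_inl, Sum.elim_inr]
  | ex x φ ih =>
    obtain ⟨ι, _, R, h1, h2⟩ := ih
    refine ⟨ι, inferInstance, fun i σ => ∃ τ : X → List A, (∀ y, y ≠ x → τ y = σ y) ∧ R i τ,
      fun i => (h1 i).ex x, fun σ => ?_⟩
    simp only [EPC.Sat, h2]
    constructor
    · rintro ⟨τ, a, i, b⟩; exact ⟨i, τ, a, b⟩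
    · rintro ⟨i, τ, a, b⟩; exact ⟨τ, a, i, b⟩

/-- Every EP-C language is an FC-UCQ language. -/
theorem epc_ucq [Finite A] [Infinite X] (w : X) (φ : EPC A X) :
    UCQ w {u | ∃ σ : X → List A, φ.Sat σ ∧ σ w = u} := by
  obtain ⟨ι, _, R, h1, h2⟩ := epc_normal φ
  choose V E hE using h1
  convert UCQ.biUnion (w := w) (Set.finite_univ (α := ι))
    (L := fun i => sysLang (Sum.inl w) (E i)) (fun i _ => sys_ucq w _ _) using 1
  ext u
  simp only [Set.mem_ofPred_eq, h2, hE, Set.mem_univ, Set.iUnion_true, Set.mem_iUnion, sysLang]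
  constructor
  · rintro ⟨σ, ⟨i, τ, h⟩, rfl⟩
    exact ⟨i, _, h, rfl⟩
  · rintro ⟨i, ρ, h, rfl⟩
    refine ⟨fun x => ρ (Sum.inl x), ⟨i, fun v => ρ (Sum.inr v), ?_⟩, rfl⟩
    convert h using 1
    funext z; cases z <;> rfl

lemma epc_union {w : X} {L L' : Set (List A)} (h : L ∈ epcClass A w) (h' : L' ∈ epcClass A w) :
    L ∪ L' ∈ epcClass A w := by
  obtain ⟨φ, h1, rfl⟩ := h
  obtain ⟨φ', h1', rfl⟩ := h'
  refine ⟨φ.disj φ', by simp [EPC.free, h1, h1'], ?_⟩
  ext u
  simp only [Set.mem_union, Set.mem_ofPred_eq, EPC.Sat, or_and_right, exists_or]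

lemma sat_foldr_conj (b : EPC A X) (l : List (EPC A X)) (σ : X → List A) :
    (l.foldr EPC.conj b).Sat σ ↔ b.Sat σ ∧ ∀ φ ∈ l, φ.Sat σ := by
  induction l with
  | nil => simp
  | cons φ l ih => simp only [List.foldr_cons, EPC.Sat, ih, List.forall_mem_cons]; tauto

lemma free_foldr_conj (b : EPC A X) (l : List (EPC A X)) (x : X) :
    x ∈ (l.foldr EPC.conj b).free ↔ x ∈ b.free ∨ ∃ φ ∈ l, x ∈ φ.free := by
  induction l with
  | nil => simp
  | cons φ l ih =>
    simp only [List.foldr_cons, EPC.free, Set.mem_union, ih, List.mem_cons, exists_eq_or_imp]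
    tauto

lemma sat_foldr_ex (b : EPC A X) (l : List X) (σ : X → List A) :
    (l.foldr EPC.ex b).Sat σ ↔ ∃ τ : X → List A, (∀ y, y ∉ l → τ y = σ y) ∧ b.Sat τ := by
  classical
  induction l generalizing σ with
  | nil =>
    simp only [List.foldr_nil, List.not_mem_nil, not_false_eq_true, forall_const]
    exact ⟨fun h => ⟨σ, fun _ => rfl, h⟩, fun ⟨τ, h1, h2⟩ => (funext h1 : τ = σ) ▸ h2⟩
  | cons x l ih =>
    simp only [List.foldr_cons, EPC.Sat, ih, List.mem_cons, not_or]
    constructor
    · rintro ⟨τ, h1, ρ, h2, h3⟩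
      exact ⟨ρ, fun y hy => (h2 y hy.2).trans (h1 y hy.1), h3⟩
    · rintro ⟨ρ, h1, h2⟩
      refine ⟨fun y => if y = x then ρ y else σ y, fun y hy => if_neg hy, ρ, fun y hy => ?_, h2⟩
      by_cases hx : y = x
      · simp [hx]
      · simp [hx, h1 y ⟨hx, hy⟩]

lemma free_foldr_ex (b : EPC A X) (l : List X) (x : X) :
    x ∈ (l.foldr EPC.ex b).free ↔ x ∈ b.free ∧ x ∉ l := by
  induction l with
  | nil => simp
  | cons y l ih =>
    simp only [List.foldr_cons, EPC.free, Set.mem_sdiff, ih, Set.mem_singleton_iff, List.mem_cons]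
    tauto

lemma cq_epc [Infinite X] (w : X) (φ : List (X × List (A ⊕ X))) : cqLang w φ ∈ epcClass A w := by
  classical
  have hps : ∀ x : X, ∃ ψ : EPC A X, (∀ y ∈ ψ.free, y = w ∨ y = x) ∧
      ∀ σ, ψ.Sat σ ↔ σ x <:+: σ w := by
    intro x
    obtain ⟨p, hp⟩ := Infinite.exists_notMem_finset ({w, x} : Finset X)
    obtain ⟨s, hs⟩ := Infinite.exists_notMem_finset ({w, x, p} : Finset X)
    simp only [Finset.mem_insert, Finset.mem_singleton, not_or] at hp hs
    refine ⟨.ex p (.ex s (.eqn [Sum.inr w] [Sum.inr p, Sum.inr x, Sum.inr s])), ?_, fun σ => ?_⟩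
    · intro y hy
      simp only [EPC.free, Set.mem_sdiff, Set.mem_ofPred_eq, List.mem_cons, Sum.inr.injEq,
        List.not_mem_nil, or_false, Set.mem_singleton_iff] at hy
      tauto
    · simp only [EPC.Sat, subst_inr, subst_nil, List.append_nil]
      constructor
      · rintro ⟨τ, h1, ρ, h2, h3⟩
        rw [h2 w (Ne.symm hs.1), h1 w (Ne.symm hp.1), h2 x (Ne.symm hs.2.1),
          h1 x (Ne.symm hp.2)] at h3
        exact ⟨_, _, by rw [h3, List.append_assoc]⟩
      · rintro ⟨a, b, h⟩
        refine ⟨Function.update σ p a, fun y hy => Function.update_of_ne hy _ _,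
          Function.update (Function.update σ p a) s b, fun y hy => Function.update_of_ne hy _ _, ?_⟩
        rw [Function.update_of_ne (Ne.symm hs.1), Function.update_of_ne (Ne.symm hp.1),
          Function.update_of_ne (Ne.symm hs.2.2), Function.update_self,
          Function.update_of_ne (Ne.symm hs.2.1), Function.update_of_ne (Ne.symm hp.2),
          Function.update_self, ← h, List.append_assoc]
  choose sf hsf1 hsf2 using hps
  let vs : List X := (φ.flatMap (fun e => e.1 :: e.2.filterMap Sum.getRight?)).filter (· ≠ w)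
  have hvs : ∀ x, x ∈ vs ↔ (∃ e ∈ φ, x = e.1 ∨ Sum.inr x ∈ e.2) ∧ x ≠ w := by
    intro x
    simp [vs]
  let b : EPC A X := (φ.map (fun e => EPC.eqn [Sum.inr e.1] e.2) ++ vs.map sf).foldr EPC.conj
    (EPC.eqn [Sum.inr w] [Sum.inr w])
  have hb : ∀ σ, b.Sat σ ↔ (∀ e ∈ φ, σ e.1 = subst σ e.2) ∧ ∀ x ∈ vs, σ x <:+: σ w := by
    intro σ
    simp only [b, sat_foldr_conj, EPC.Sat, true_and, List.mem_append, or_imp, forall_and,
      List.forall_mem_map, hsf2, subst_inr, subst_nil, List.append_nil]
  refine ⟨vs.foldr EPC.ex b, ?_, ?_⟩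
  · ext x
    simp only [free_foldr_ex, b, free_foldr_conj, Set.mem_singleton_iff, EPC.free,
      Set.mem_ofPred_eq, List.mem_singleton, Sum.inr.injEq, or_self, List.mem_append,
      List.mem_map]
    constructor
    · rintro ⟨h | ⟨ψ, ⟨e, he, rfl⟩ | ⟨y, hy, rfl⟩, h⟩, h2⟩
      · exact h
      · by_contra hx
        refine h2 ((hvs x).2 ⟨⟨e, he, ?_⟩, hx⟩)
        simpa [EPC.free] using h
      · rcases hsf1 y x h with h | h
        · exact h
        · exact absurd (h ▸ hy) h2
    · rintro rfl
      exact ⟨Or.inl rfl, fun h => ((hvs _).1 h).2 rfl⟩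
  · ext u
    simp only [Set.mem_ofPred_eq, sat_foldr_ex, hb, cqLang]
    constructor
    · rintro ⟨σ, h1, h2, rfl⟩
      exact ⟨σ, ⟨σ, fun _ _ => rfl, h2, fun x _ => h1 x⟩, rfl⟩
    · rintro ⟨σ, ⟨τ, h1, h2, h3⟩, rfl⟩
      let ρ : X → List A := fun x => if x ∈ vs ∨ x = w then τ x else []
      have hρ : ∀ e ∈ φ, ∀ x, x = e.1 ∨ Sum.inr x ∈ e.2 → ρ x = τ x := by
        intro e he x hx
        refine if_pos ?_
        by_cases hw : x = w
        · exact Or.inr hw
        · exact Or.inl ((hvs x).2 ⟨⟨e, he, hx⟩, hw⟩)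
      have hρw : ρ w = τ w := if_pos (Or.inr rfl)
      refine ⟨ρ, fun x => ?_, fun e he => ?_, hρw.trans (h1 w (fun h => ((hvs _).1 h).2 rfl))⟩
      · rw [hρw]
        simp only [ρ]
        split_ifs with h
        · rcases h with h | rfl
          · exact h3 x h
          · exact List.infix_rfl
        · exact List.nil_infix
      · rw [hρ e he _ (Or.inl rfl), subst_congr (τ := τ) (fun x hx => hρ e he x (Or.inr hx))]
        exact h2 e he

theorem classes_eq [Finite A] [Nonempty A] [Infinite X] (w : X) :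
    fcUcqClass A w = epcClass A w := by
  ext L
  constructor
  · rintro ⟨Φ, h1, -, rfl⟩
    induction Φ with
    | nil => exact absurd rfl h1
    | cons φ Φ ih =>
      by_cases h : Φ = []
      · subst h
        simpa using cq_epc w φ
      · have := epc_union (cq_epc w φ) (ih h)
        simp only [List.mem_cons, exists_eq_or_imp]
        exact this
  · rintro ⟨φ, -, rfl⟩
    exact (epc_ucq w φ).mem_class

end Pool.Agent.Lib.MP_ab3cdc_lc
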