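import Pool.Agent.Lib.MP_ab3cdc_lc.Cut

namespace Pool.Agent.Lib.MP_ab3cdc_lc

variable {A V : Type}

/-- The factor of length `l` at position `i` of the infinite word `ω`. -/
def seg (ω : ℕ → A) (i l : ℕ) : List A := (List.range' i l).map ω

variable (ω : ℕ → A)

@[simp] lemma seg_length (i l : ℕ) : (seg ω i l).length = l := by simp [seg]

@[simp] lemma seg_zero (i : ℕ) : seg ω i 0 = [] := by simp [seg]

lemma seg_add (i a b : ℕ) : seg ω i (a + b) = seg ω i a ++ seg ω (i + a) b := by
  simp only [seg, ← List.map_append]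
  congr 1
  exact (List.range'_append_1).symm

lemma seg_getElem? {i l j : ℕ} (h : j < l) : (seg ω i l)[j]? = some (ω (i + j)) := by
  simp [seg, h]

lemma seg_ext {i i' l : ℕ} (h : ∀ j < l, ω (i + j) = ω (i' + j)) : seg ω i l = seg ω i' l := by
  refine List.ext_getElem? (fun j => ?_)
  by_cases hj : j < l
  · rw [seg_getElem? ω hj, seg_getElem? ω hj, h j hj]
  · rw [List.getElem?_eq_none (by simpa using hj), List.getElem?_eq_none (by simpa using hj)]

lemma seg_inj {i i' l : ℕ} (h : seg ω i l = seg ω i' l) : ∀ j < l, ω (i + j) = ω (i' + j) := by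
  intro j hj
  have h1 := seg_getElem? ω (i := i) hj
  rw [h, seg_getElem? ω hj] at h1
  exact (Option.some.inj h1).symm

lemma seg_infix {i l j m : ℕ} (h : j + m ≤ l) : seg ω (i + j) m <:+: seg ω i l := by
  obtain ⟨r, rfl⟩ := Nat.exists_eq_add_of_le h
  rw [seg_add, seg_add]
  exact List.infix_append _ _ _

lemma seg_prefix {i l m : ℕ} (h : m ≤ l) : seg ω i m <+: seg ω i l := by
  obtain ⟨r, rfl⟩ := Nat.exists_eq_add_of_le h
  rw [seg_add]
  exact List.prefix_append _ _

lemma seg_split {i l : ℕ} {f g : List A} (h : seg ω i l = f ++ g) :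
    f = seg ω i f.length ∧ g = seg ω (i + f.length) g.length := by
  have hl : l = f.length + g.length := by simpa using congrArg List.length h
  rw [hl, seg_add] at h
  have := List.append_inj h (by simp)
  exact ⟨this.1.symm, this.2.symm⟩

lemma eq_seg_of_prefix {i l : ℕ} {f : List A} (h : f <+: seg ω i l) : f = seg ω i f.length := by
  obtain ⟨g, hg⟩ := h
  exact (seg_split ω hg.symm).1

variable {ω} {p : ℕ}

lemma per_mul (hp : ∀ i, ω (i + p) = ω i) (k i : ℕ) : ω (i + k * p) = ω i := by
  induction k with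
  | zero => simp
  | succ k ih => rw [Nat.succ_mul, ← add_assoc, hp, ih]

lemma seg_shift (hp : ∀ i, ω (i + p) = ω i) (k i l : ℕ) : seg ω (i + k * p) l = seg ω i l :=
  seg_ext ω (fun j _ => by rw [add_right_comm, per_mul hp])

lemma seg_mod (hp : ∀ i, ω (i + p) = ω i) (i l : ℕ) : seg ω i l = seg ω (i % p) l := by
  conv_lhs => rw [← Nat.mod_add_div i p, mul_comm, seg_shift hp]

lemma seg_contains (hp : ∀ i, ω (i + p) = ω i) (hp0 : 0 < p) {i l N : ℕ} (h : N + p ≤ l) :
    seg ω 0 N <:+: seg ω i l := by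
  rw [seg_mod hp i l]
  have h1 := Nat.mod_lt i hp0
  have h2 : seg ω 0 N = seg ω (i % p + (p - i % p)) N := by
    rw [← seg_shift hp 1 0 N]; congr 1; omega
  rw [h2]
  exact seg_infix ω (by omega)

lemma seg_length_le (hp : ∀ i, ω (i + p) = ω i) (hp0 : 0 < p) {N m i l : ℕ}
    (h : FL {y | ¬ seg ω 0 N <:+: y} m (seg ω i l)) : l ≤ m * (N + p) := by
  obtain ⟨L, h1, h2, h3⟩ := h
  induction L generalizing m i l with
  | nil =>
    have := congrArg List.length h3
    simp at this; omega
  | cons f L ih =>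
    simp only [List.flatten_cons, List.length_cons] at h1 h3
    obtain ⟨h4, h5⟩ := seg_split ω h3.symm
    have h6 := ih (m := m - 1) (by omega) (fun g hg => h2 g (List.mem_cons_of_mem _ hg)) h5
    have h7 : f.length < N + p := by
      by_contra hc
      refine h2 f List.mem_cons_self ?_
      rw [h4]
      exact seg_contains hp hp0 (by omega)
    have h8 : l = f.length + L.flatten.length := by simpa using (congrArg List.length h3).symm
    obtain ⟨m', rfl⟩ : ∃ m', m = m' + 1 := ⟨m - 1, by omega⟩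
    simp only [Nat.add_sub_cancel] at h6
    rw [Nat.succ_mul]; omega

lemma FL_seg (hp : ∀ i, ω (i + p) = ω i) (hp0 : 0 < p) {F : Set (List A)} (hF : Factorial F)
    {N : ℕ} (hN : seg ω 0 (N - 1) ∈ F) (hpN : p ≤ N) (k i l : ℕ) (h : l ≤ k * (N - p)) :
    FL F k (seg ω i l) := by
  have hs : ∀ i l, l ≤ N - p → seg ω i l ∈ F := by
    intro i l hl
    refine hF _ _ ?_ hN
    rw [seg_mod hp i l]
    have := Nat.mod_lt i hp0
    simpa using seg_infix ω (i := 0) (j := i % p) (m := l) (l := N - 1) (by omega)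
  induction k generalizing i l with
  | zero =>
    obtain rfl : l = 0 := by omega
    simpa using FL.nil _ _
  | succ k ih =>
    by_cases hl : l ≤ N - p
    · exact (FL.of_mem (hs i l hl)).mono (by omega)
    · obtain ⟨r, rfl⟩ : ∃ r, l = (N - p) + r := ⟨l - (N - p), by omega⟩
      rw [seg_add, add_comm k 1]
      refine (FL.of_mem (hs _ _ le_rfl)).append (ih _ _ ?_)
      rw [Nat.succ_mul] at h; omega

lemma seg_pow (hp : ∀ i, ω (i + p) = ω i) (t : ℕ) :
    (List.replicate t (seg ω 0 p)).flatten = seg ω 0 (t * p) := by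
  induction t with
  | zero => simp
  | succ t ih =>
    rw [List.replicate_succ', List.flatten_append, ih, Nat.succ_mul, seg_add, seg_shift hp]
    simp

lemma cut_pow (hp : ∀ i, ω (i + p) = ω i) (hp0 : 0 < p)
    (hprim : ∀ q, 0 < q → q < p → ¬ ∀ j, ω (j + q) = ω j) (t : ℕ) (c : List A) :
    cut (fun y => seg ω 0 p <:+ y) (c ++ seg ω 0 p) [] (seg ω 0 (t * p)) =
      (List.replicate t (seg ω 0 p), []) := by
  have one : ∀ c : List A, cut (fun y => seg ω 0 p <:+ y) (c ++ seg ω 0 p) [] (seg ω 0 p) =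
      ([seg ω 0 p], []) := by
    intro c
    obtain ⟨q, rfl⟩ : ∃ q, p = q + 1 := ⟨p - 1, by omega⟩
    have h1 : cut (fun y => seg ω 0 (q + 1) <:+ y) (c ++ seg ω 0 (q + 1)) [] (seg ω 0 q) =
        ([], [] ++ seg ω 0 q) := by
      refine cut_none _ _ _ _ (fun z hz hz0 hm => ?_)
      have h2 := eq_seg_of_prefix ω hz
      have h3 : z.length ≤ q := by simpa using hz.length_le
      have h4 : 0 < z.length := List.length_pos_iff.2 hz0
      have h5 : seg ω 0 (q + 1) ++ z = seg ω 0 z.length ++ seg ω z.length (q + 1) := by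
        have e1 := seg_add ω 0 (q + 1) z.length
        have e2 := seg_add ω 0 z.length (q + 1)
        have e3 := seg_shift hp 1 0 z.length
        simp only [zero_add, one_mul] at e1 e2 e3
        rw [← e2, add_comm z.length, e1, e3, ← h2]
      rw [List.append_assoc, h5, ← List.append_assoc] at hm
      have h6 : seg ω 0 (q + 1) = seg ω z.length (q + 1) :=
        (List.suffix_of_suffix_length_le hm (List.suffix_append _ _) (by simp)).eq_of_length
          (by simp)
      refine hprim z.length h4 (by omega) (fun j => ?_)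
      have h7 := seg_inj ω h6 (j % (q + 1)) (Nat.mod_lt _ hp0)
      have h8 := per_mul hp (j / (q + 1)) (j % (q + 1))
      have h9 := per_mul hp (j / (q + 1)) (z.length + j % (q + 1))
      have h10 := Nat.mod_add_div j (q + 1)
      rw [mul_comm] at h10
      rw [h10] at h8
      rw [add_assoc, h10] at h9
      rw [add_comm j, h9, ← h7, h8, zero_add]
    have h2 : seg ω 0 (q + 1) = seg ω 0 q ++ [ω q] := by
      rw [seg_add]; simp [seg]
    conv_lhs => enter [4]; rw [h2]
    rw [cut_append, h1]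
    have h3 : seg ω 0 (q + 1) <:+ c ++ seg ω 0 (q + 1) ++ seg ω 0 q ++ [ω q] := by
      rw [List.append_assoc _ _ [ω q], ← h2]
      exact List.suffix_append _ _
    simp only [cut, h3, if_true, List.nil_append, ← h2]
  induction t generalizing c with
  | zero => simp [cut]
  | succ t ih =>
    have h1 : seg ω 0 ((t + 1) * p) = seg ω 0 p ++ seg ω 0 (t * p) := by
      have e3 := seg_shift hp 1 0 (t * p)
      simp only [zero_add, one_mul] at e3
      rw [Nat.succ_mul, add_comm, seg_add, zero_add, e3]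
    rw [h1, cut_append, one c, ih (c ++ seg ω 0 p)]
    simp [List.replicate_succ]

lemma exists_min_prefix (Q : List A → Prop) (x : List A) (h : ∃ z, z <+: x ∧ Q z) :
    ∃ z, z <+: x ∧ Q z ∧ ∀ z', z' <+: x → Q z' → z.length ≤ z'.length := by
  obtain ⟨z, hz, hm⟩ := (measure List.length).wf.has_min {z | z <+: x ∧ Q z} h
  exact ⟨z, hz.1, hz.2, fun z' h1 h2 => not_lt.1 (hm z' ⟨h1, h2⟩)⟩

lemma exists_min_suffix (Q : List A → Prop) (x : List A) (h : ∃ z, z <:+ x ∧ Q z) :
    ∃ z, z <:+ x ∧ Q z ∧ ∀ z', z' <:+ x → Q z' → z.length ≤ z'.length := by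
  obtain ⟨z, hz, hm⟩ := (measure List.length).wf.has_min {z | z <:+ x ∧ Q z} h
  exact ⟨z, hz.1, hz.2, fun z' h1 h2 => not_lt.1 (hm z' ⟨h1, h2⟩)⟩

lemma exists_max_prefix (Q : List A → Prop) (x : List A) (h : ∃ z, z <+: x ∧ Q z) :
    ∃ z, z <+: x ∧ Q z ∧ ∀ z', z' <+: x → Q z' → z'.length ≤ z.length := by
  obtain ⟨z, hz, hm⟩ := (measure (fun z : List A => x.length - z.length)).wf.has_min
    {z | z <+: x ∧ Q z} h
  refine ⟨z, hz.1, hz.2, fun z' h1 h2 => ?_⟩
  have h3 : ¬ (x.length - z'.length < x.length - z.length) := hm z' ⟨h1, h2⟩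
  have := h1.length_le
  omega

lemma sublist_flatten_length {l l' : List (List A)} (h : l'.Sublist l) (hne : ∀ q ∈ l, q ≠ []) :
    l'.flatten.length ≤ l.flatten.length ∧ (l'.flatten.length = l.flatten.length → l' = l) := by
  induction h with
  | slnil => simp
  | cons a _ ih =>
    have h1 := ih (fun q hq => hne q (List.mem_cons_of_mem _ hq))
    have h2 : 0 < a.length := List.length_pos_iff.2 (hne a List.mem_cons_self)
    simp only [List.flatten_cons, List.length_append]
    omega
  | cons_cons a _ ih =>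
    have h1 := ih (fun q hq => hne q (List.mem_cons_of_mem _ hq))
    simp only [List.flatten_cons, List.length_append]
    exact ⟨by omega, fun h => by rw [h1.2 (by omega)]⟩

lemma infix_flatten {l l' : List (List A)} (h : l' <:+: l) : l'.flatten <:+: l.flatten := by
  obtain ⟨s, t, rfl⟩ := h
  exact ⟨s.flatten, t.flatten, by simp⟩

end Pool.Agent.Lib.MP_ab3cdc_lc
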